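import Mathlib

set_option autoImplicit false

/-!
# The determinant method along orbits (MP_91e6de): definitions
-/

namespace Pool.Agent.Work.MP_91e6de_nt.DM

open MvPolynomial NumberField IsDedekindDomain

/-- `w ^ e * p (u / w, v / w)`, meaningful for `totalDegree p ≤ e`: the homogenisation of `p` to
degree `e`, evaluated at `(u, v, w)`. -/
noncomputable def hsub {A S : Type} [CommRing A] [CommRing S] [Algebra A S] (e : ℕ)
    (p : MvPolynomial (Fin 2) A) (u v w : S) : S :=
  ∑ m ∈ p.support, algebraMap A S (p.coeff m) * (u ^ m 0 * v ^ m 1 * w ^ (e - (m 0 + m 1)))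

/-- The iterates of the rational map `(x, y) ↦ (p 0 / p 2, p 1 / p 2)` of the plane, as triples of
polynomials (not reduced): `(itr k 0 / itr k 2, itr k 1 / itr k 2)` is the `k`-th iterate. -/
noncomputable def itr {A : Type} [CommRing A] (e : ℕ) (p : Fin 3 → MvPolynomial (Fin 2) A) :
    ℕ → Fin 3 → MvPolynomial (Fin 2) A
  | 0 => ![X 0, X 1, 1]
  | k + 1 => fun i => hsub e (p i) (itr e p k 0) (itr e p k 1) (itr e p k 2)

/-- `P 0, P 1, ..., P M` is a piece of an orbit of `(x, y) ↦ (p 0 / p 2, p 1 / p 2)`. -/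
def IsOrb {A K : Type} [CommRing A] [Field K] [Algebra A K]
    (p : Fin 3 → MvPolynomial (Fin 2) A) (M : ℕ) (P : ℕ → Fin 2 → K) : Prop :=
  ∀ n < M, aeval (P n) (p 2) ≠ 0 ∧
    ∀ i : Fin 2, aeval (P n) (p 2) * P (n + 1) i = aeval (P n) (p i.castSucc)

/-- The reduced degree of `U / W` in the variable `j` is at least `D`. -/
def RD {K : Type} [Field K] (j : Fin 2) (D : ℕ) (U W : MvPolynomial (Fin 2) K) : Prop :=
  ∀ A B : MvPolynomial (Fin 2) K, A.degreeOf j < D → B.degreeOf j < D → A * W = B * U →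
    A = 0 ∧ B = 0

/-- The `v`-adic absolute value of a number field, `|x| = (N v) ^ (- ord x)`. -/
noncomputable abbrev va {K : Type} [Field K] [NumberField K] (v : HeightOneSpectrum (𝓞 K)) :
    AbsoluteValue K ℝ :=
  NumberField.HeightOneSpectrum.adicAbv K v

/-- The norm of a prime ideal. -/
noncomputable abbrev nv {K : Type} [Field K] [NumberField K] (v : HeightOneSpectrum (𝓞 K)) : ℕ :=
  Ideal.absNorm v.asIdeal

/-- Covering property: every set of times `≤ 2 N` has a part of proportion `1 / L` on an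
irreducible curve of degree `≤ t`. -/
def Cov {K : Type} [Field K] (P : ℕ → Fin 2 → K) (N t L : ℕ) : Prop :=
  ∀ S : Finset ℕ, S.Nonempty → (∀ n ∈ S, n ≤ 2 * N) →
    ∃ (G : MvPolynomial (Fin 2) K) (S' : Finset ℕ), Irreducible G ∧ G.totalDegree ≤ t ∧ S' ⊆ S ∧
      S.card ≤ S'.card * L ∧ ∀ n ∈ S', aeval (P n) G = 0

/-- Pull back of the curve `G = 0` by `(x, y) ↦ (p 0 / p 2, p 1 / p 2)`. -/
noncomputable def pull {K : Type} [Field K] (p : Fin 3 → MvPolynomial (Fin 2) K)
    (G : MvPolynomial (Fin 2) K) : MvPolynomial (Fin 2) K :=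
  hsub G.totalDegree G (p 0) (p 1) (p 2)

/-- The degree bound. -/
def tt (kap e m k : ℕ) : ℕ := 2 * (4 * kap * m ^ 2) + 4 * kap * m ^ 2 * e ^ k

/-- The covering number. -/
def LL (kap e m k : ℕ) : ℕ := 2 * ((16 * ((k + 2) * m) ^ 2) ^ kap) ^ 2 * tt kap e m k

/-! ## Skew products over a translation -/

/-- `w ^ d * A (x, u / w)`: the binary form of degree `d` in `(u, w)` attached to `A (x, y)`,
meaningful for `degreeOf 1 A ≤ d`. -/
noncomputable def bh {K S : Type} [Field K] [CommRing S] [Algebra K S] (d : ℕ)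
    (A : MvPolynomial (Fin 2) K) (x u w : S) : S :=
  ∑ m ∈ A.support, algebraMap K S (A.coeff m) * (x ^ m 0 * u ^ m 1 * w ^ (d - m 1))

/-- `A / B` is a rational function of degree `d` in the second variable: `A` and `B` are coprime
over the field of rational functions of the first variable, and the larger of their degrees is
`d`. -/
def Sk {K : Type} [Field K] (d : ℕ) (A B : MvPolynomial (Fin 2) K) : Prop :=
  (∀ G, G ∣ A → G ∣ B → G.degreeOf 1 = 0) ∧ A.degreeOf 1 ≤ d ∧ B.degreeOf 1 ≤ d ∧
    (A.degreeOf 1 = d ∨ B.degreeOf 1 = d)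

/-- The second coordinate of the `k`-th iterate of `(x, y) ↦ (x + b, A (x, y) / B (x, y))`, as a
pair (numerator, denominator). -/
noncomputable def itY {K : Type} [Field K] (d : ℕ) (A B : MvPolynomial (Fin 2) K) (b : K) :
    ℕ → MvPolynomial (Fin 2) K × MvPolynomial (Fin 2) K
  | 0 => (X 1, 1)
  | k + 1 => (bh d A (X 0 + C (k * b)) (itY d A B b k).1 (itY d A B b k).2,
      bh d B (X 0 + C (k * b)) (itY d A B b k).1 (itY d A B b k).2)

/-! ## Rational self-maps of the projective plane -/

/-- The iterates of the self-map `F` of the projective plane (forms, not reduced). -/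
noncomputable def itF {K : Type} [CommRing K] (F : Fin 3 → MvPolynomial (Fin 3) K) :
    ℕ → Fin 3 → MvPolynomial (Fin 3) K
  | 0 => fun i => X i
  | n + 1 => fun i => aeval (itF F n) (F i)

/-- The degree of the `n`-th iterate as a rational self-map of the projective plane: the smallest
degree of a nonzero triple of forms proportional to `itF F n`. -/
noncomputable def dgF {K : Type} [Field K] (F : Fin 3 → MvPolynomial (Fin 3) K) (n : ℕ) : ℕ :=
  sInf {r | ∃ G : Fin 3 → MvPolynomial (Fin 3) K, G ≠ 0 ∧ (∀ i, (G i).IsHomogeneous r) ∧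
    ∀ i j, G i * itF F n j = G j * itF F n i}

/-- Restriction of a form to the chart `x = X / (Z + a X + b Y)`, `y = Y / (Z + a X + b Y)`. -/
noncomputable def dh {A : Type} [CommRing A] (a b : ℕ) (F : MvPolynomial (Fin 3) A) :
    MvPolynomial (Fin 2) A :=
  aeval ![X 0, X 1, 1 - (a : MvPolynomial (Fin 2) A) * X 0 - (b : MvPolynomial (Fin 2) A) * X 1] F

/-- The map `F` in this chart. -/
noncomputable def pF {A : Type} [CommRing A] (a b : ℕ) (F : Fin 3 → MvPolynomial (Fin 3) A) :
    Fin 3 → MvPolynomial (Fin 2) A :=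
  ![dh a b (F 0), dh a b (F 1),
    dh a b (F 2) + (a : MvPolynomial (Fin 2) A) * dh a b (F 0) +
      (b : MvPolynomial (Fin 2) A) * dh a b (F 1)]

/-- A vector of `K ^ 3` in this chart. -/
def ch {K : Type} [Field K] (a b : ℕ) (P : Fin 3 → K) : Fin 2 → K :=
  ![P 0 / (P 2 + a * P 0 + b * P 1), P 1 / (P 2 + a * P 0 + b * P 1)]

/-- Homogenisation of `G` back in the coordinates `X, Y, Z`. -/
noncomputable def hG {K : Type} [Field K] (a b : ℕ) (G : MvPolynomial (Fin 2) K) :
    MvPolynomial (Fin 3) K :=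
  hsub G.totalDegree G (X 0) (X 1)
    (X 2 + (a : MvPolynomial (Fin 3) K) * X 0 + (b : MvPolynomial (Fin 3) K) * X 1)

end Pool.Agent.Work.MP_91e6de_nt.DM
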