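import Mathlib
import Pool.Agent.Work.MP_91e6de_nt.DM.Defs

set_option autoImplicit false

/-!
# The determinant method along orbits (MP_91e6de): statements, Part A (core)
-/

namespace Pool.Agent.Work.MP_91e6de_nt.DM

open MvPolynomial NumberField IsDedekindDomain Height

/-! ## Arithmetic -/

/-- A01 pigeonhole with Taylor expansions: an integer combination of the `E j` which is divisible
by `v ^ T` on a residue disc -/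
def S_Pig : Prop := ∀ (K : Type) [Field K] [NumberField K] (v : HeightOneSpectrum (𝓞 K))
  (a : Fin 2 → 𝓞 K) (J : Type) [Fintype J] (E : J → MvPolynomial (Fin 2) (𝓞 K)) (T X : ℕ),
  nv v ^ T ^ 3 < (X + 1) ^ Fintype.card J →
    ∃ c : J → ℤ, c ≠ 0 ∧ (∀ j, |c j| ≤ X) ∧
      ∀ P : Fin 2 → K, (∀ i, va v (P i - algebraMap (𝓞 K) K (a i)) < 1) →
        va v (aeval P (∑ j, c j • E j)) ≤ ((nv v : ℝ)⁻¹) ^ T

/-- A02 product formula argument -/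
def S_Van : Prop := ∀ (K : Type) [Field K] [NumberField K] (v : HeightOneSpectrum (𝓞 K))
  (J : Type) [Fintype J] (ex : J → Fin 3 → ℕ) (c : J → ℤ) (X : ℕ) (D : ℕ) (x : Fin 3 → K)
  (θ : ℝ), 1 ≤ X → (∀ j, |c j| ≤ X) → (∀ j i, ex j i ≤ D) →
    va v (∑ j, (c j : K) * ∏ i, x i ^ ex j i) ≤ θ →
    θ * (((Fintype.card J * X : ℕ) : ℝ) ^ Module.finrank ℚ K * ∏ i, mulHeight₁ (x i) ^ D) < 1 →
      ∑ j, (c j : K) * ∏ i, x i ^ ex j i = 0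

/-- A03 few places where a given number is not a unit -/
def S_Bad : Prop := ∀ (K : Type) [Field K] [NumberField K]
  (V : Finset (HeightOneSpectrum (𝓞 K))) (a : K), a ≠ 0 → (∀ v ∈ V, va v a ≠ 1) →
    (V.card : ℝ) * Real.log 2 ≤ 2 * logHeight₁ a

/-- A04 many primes -/
def S_Prm : Prop := ∀ M : ℕ, 1 ≤ M → ∃ S : Finset ℕ, S.card = M ∧
  ∀ p ∈ S, p.Prime ∧ p ≤ 16 * M ^ 2

/-- A05 many places of small norm -/
def S_Plc : Prop := ∀ (K : Type) [Field K] [NumberField K] (M : ℕ), 1 ≤ M →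
  ∃ V : Finset (HeightOneSpectrum (𝓞 K)), V.card = M ∧
    ∀ v ∈ V, nv v ≤ (16 * M ^ 2) ^ Module.finrank ℚ K

/-- A06 averaging -/
def S_Avg : Prop := ∀ (α β : Type) (S : Finset α) (V : Finset β) (bad : α → β → Prop) (B : ℕ),
  V.Nonempty → (∀ n ∈ S, ∀ V' ⊆ V, (∀ v ∈ V', bad n v) → V'.card ≤ B) → 2 * B ≤ V.card →
    ∃ v ∈ V, ∃ S' ⊆ S, S.card ≤ 2 * S'.card ∧ ∀ n ∈ S', ¬ bad n v

/-- A07 residue classes -/
def S_Cls : Prop := ∀ (K : Type) [Field K] [NumberField K] (v : HeightOneSpectrum (𝓞 K))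
  (S : Finset ℕ) (P : ℕ → Fin 2 → K), (∀ n ∈ S, ∀ i, va v (P n i) ≤ 1) →
    ∃ (a : Fin 2 → 𝓞 K) (S' : Finset ℕ), S' ⊆ S ∧ S.card ≤ S'.card * nv v ^ 2 ∧
      ∀ n ∈ S', ∀ i, va v (P n i - algebraMap (𝓞 K) K (a i)) < 1

/-! ## Algebra -/

/-- A08 evaluation of `hsub` -/
def S_HsEv : Prop := ∀ (A K : Type) [CommRing A] [Field K] [Algebra A K] (e : ℕ)
  (p : MvPolynomial (Fin 2) A), p.totalDegree ≤ e →
    (∀ u v w : K, w ≠ 0 → hsub e p u v w = w ^ e * aeval ![u / w, v / w] p) ∧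
    (∀ (P : Fin 2 → K) (U V W : MvPolynomial (Fin 2) A),
      aeval P (hsub e p U V W) = hsub e p (aeval P U) (aeval P V) (aeval P W)) ∧
    (∀ (U V W : MvPolynomial (Fin 2) A) (r : ℕ), U.totalDegree ≤ r → V.totalDegree ≤ r →
      W.totalDegree ≤ r → (hsub e p U V W).totalDegree ≤ e * r)

/-- A09 iterates along an orbit -/
def S_Ite : Prop := ∀ (A K : Type) [CommRing A] [Field K] [Algebra A K] (e : ℕ)
  (p : Fin 3 → MvPolynomial (Fin 2) A), (∀ i, (p i).totalDegree ≤ e) →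
    ∀ (M : ℕ) (P : ℕ → Fin 2 → K), IsOrb p M P → ∀ n k, n + k ≤ M →
      aeval (P n) (itr e p k 2) ≠ 0 ∧
      (∀ i : Fin 2, aeval (P n) (itr e p k i.castSucc) =
        aeval (P n) (itr e p k 2) * P (n + k) i) ∧
      aeval (P n) (itr e p k 2) =
        ∏ l ∈ Finset.range k, aeval (P (n + l)) (p 2) ^ e ^ (k - 1 - l)

/-- A10 degrees of the iterates -/
def S_Deg : Prop := ∀ (A : Type) [CommRing A] (e : ℕ) (p : Fin 3 → MvPolynomial (Fin 2) A),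
  1 ≤ e → (∀ i, (p i).totalDegree ≤ e) → ∀ k i, (itr e p k i).totalDegree ≤ e ^ k

/-- A11 independence -/
def S_Ind : Prop := ∀ (K : Type) [Field K] (j : Fin 2) (D g : ℕ)
  (U W : MvPolynomial (Fin 2) K), W ≠ 0 → RD j D U W → ∀ Q : ℕ → MvPolynomial (Fin 2) K,
    (∀ l, (Q l).degreeOf j < D) →
    ∑ l ∈ Finset.range (g + 1), Q l * U ^ l * W ^ (g - l) = 0 → ∀ l ≤ g, Q l = 0

/-- A12 irreducible factor with many zeros -/
def S_Fac : Prop := ∀ (K : Type) [Field K] (E : MvPolynomial (Fin 2) K) (t : ℕ) (S : Finset ℕ)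
  (P : ℕ → Fin 2 → K), E ≠ 0 → E.totalDegree ≤ t → S.Nonempty → (∀ n ∈ S, aeval (P n) E = 0) →
    ∃ (G : MvPolynomial (Fin 2) K) (S' : Finset ℕ), Irreducible G ∧ G.totalDegree ≤ t ∧
      S' ⊆ S ∧ S.card ≤ S'.card * t ∧ ∀ n ∈ S', aeval (P n) G = 0

/-- A13 Bezout -/
def S_Bez : Prop := ∀ (K : Type) [Field K] (E A : MvPolynomial (Fin 2) K), Irreducible E →
  ¬ E ∣ A → ∀ Z : Finset (Fin 2 → K), (∀ P ∈ Z, aeval P E = 0 ∧ aeval P A = 0) →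
    Z.card ≤ E.totalDegree * A.totalDegree

/-- A14 gaps -/
def S_Gap : Prop := ∀ (N : ℕ) (S : Finset ℕ), 1 ≤ N → (∀ n ∈ S, n ≤ N) →
  ∃ g, 1 ≤ g ∧ g ≤ N ∧ S.card * (S.card - 1) ≤ 2 * N * (S.filter (fun n => n + g ∈ S)).card

/-! ## Covering and the chain of curves -/

/-- A15 covering for times which are good for one place -/
def S_Cov1 : Prop := ∀ (K : Type) [Field K] [NumberField K]
  (p : Fin 3 → MvPolynomial (Fin 2) (𝓞 K)) (e M k m : ℕ) (P : ℕ → Fin 2 → K) (i j : Fin 2)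
  (h : ℝ) (v : HeightOneSpectrum (𝓞 K)) (S : Finset ℕ), 1 ≤ e → 1 ≤ m →
  (∀ i, (p i).totalDegree ≤ e) → IsOrb p M P →
  RD j (4 * Module.finrank ℚ K * m ^ 2) (map (algebraMap (𝓞 K) K) (itr e p k i.castSucc))
    (map (algebraMap (𝓞 K) K) (itr e p k 2)) →
  (∀ n ≤ M, ∀ i, logHeight₁ (P n i) ≤ h) → 12 * h ≤ m →
  (4 * Module.finrank ℚ K * m ^ 2 + 1) * (4 * Module.finrank ℚ K * m ^ 2) *
    (4 * Module.finrank ℚ K * m ^ 2 + 1) < 2 ^ m ^ 3 →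
  (∀ n ∈ S, n + k ≤ M ∧ (∀ i, va v (P n i) ≤ 1) ∧
    ∀ l < k, va v (aeval (P (n + l)) (p 2)) = 1) →
    ∃ (E : MvPolynomial (Fin 2) K) (S' : Finset ℕ), E ≠ 0 ∧
      E.totalDegree ≤ tt (Module.finrank ℚ K) e m k ∧ S' ⊆ S ∧
      S.card ≤ S'.card * nv v ^ 2 ∧ ∀ n ∈ S', aeval (P n) E = 0

/-- A16 covering -/
def S_Cov : Prop := ∀ (K : Type) [Field K] [NumberField K]
  (p : Fin 3 → MvPolynomial (Fin 2) (𝓞 K)) (e M k m N : ℕ) (P : ℕ → Fin 2 → K) (i j : Fin 2)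
  (h : ℝ), 1 ≤ e → 1 ≤ m → (∀ i, (p i).totalDegree ≤ e) → IsOrb p M P → 2 * N + k ≤ M →
  RD j (4 * Module.finrank ℚ K * m ^ 2) (map (algebraMap (𝓞 K) K) (itr e p k i.castSucc))
    (map (algebraMap (𝓞 K) K) (itr e p k 2)) →
  (∀ n ≤ M, ∀ i, logHeight₁ (P n i) ≤ h) → (∀ n < M, logHeight₁ (aeval (P n) (p 2)) ≤ h) →
  12 * h ≤ m →
  (4 * Module.finrank ℚ K * m ^ 2 + 1) * (4 * Module.finrank ℚ K * m ^ 2) *
    (4 * Module.finrank ℚ K * m ^ 2 + 1) < 2 ^ m ^ 3 →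
    Cov P N (tt (Module.finrank ℚ K) e m k) (LL (Module.finrank ℚ K) e m k)

/-- A17 the chain of curves is cyclic -/
def S_Chn : Prop := ∀ (K : Type) [Field K] (p : Fin 3 → MvPolynomial (Fin 2) K)
  (e N t L : ℕ) (P : ℕ → Fin 2 → K), 1 ≤ e → 1 ≤ N → (∀ i, (p i).totalDegree ≤ e) →
  IsOrb p (2 * N) P → Set.InjOn P (Set.Iic (2 * N)) → Cov P N t L →
  4 * L ^ 2 * t ^ 2 * e < N →
    ∃ (n0 g : ℕ) (G : ℕ → MvPolynomial (Fin 2) K), n0 ≤ N ∧ 1 ≤ g ∧ g ≤ N ∧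
      (∀ i ≤ g, Irreducible (G i)) ∧ (∀ i < g, G i ∣ pull p (G (i + 1))) ∧ G g ∣ G 0 ∧
      aeval (P n0) (G 0) = 0

/-- A19 a cyclic chain of curves contains the rest of the orbit -/
def S_Tail : Prop := ∀ (K : Type) [Field K] (p : Fin 3 → MvPolynomial (Fin 2) K)
  (P : ℕ → Fin 2 → K) (n0 g : ℕ) (G : ℕ → MvPolynomial (Fin 2) K), (∀ M, IsOrb p M P) →
  1 ≤ g → (∀ i < g, G i ∣ pull p (G (i + 1))) → G g ∣ G 0 → aeval (P n0) (G 0) = 0 →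
    ∀ n, n0 ≤ n → aeval (P n) (∏ i ∈ Finset.range g, G i) = 0

/-- A18 parameters -/
def S_Par : Prop := ∀ (kap e k0 : ℕ) (lam : ℝ), 1 ≤ kap → 1 ≤ e → 1 < lam →
  ∃ η : ℝ, 0 < η ∧ ∀ C : ℝ, ∃ N0 : ℕ, ∀ N : ℕ, N0 ≤ N → ∃ m k : ℕ,
    12 * (C * (N : ℝ) ^ η) ≤ m ∧ 1 ≤ m ∧ k0 ≤ k ∧ k ≤ N ∧
    (4 * kap * m ^ 2 + 1) * (4 * kap * m ^ 2) * (4 * kap * m ^ 2 + 1) < 2 ^ m ^ 3 ∧
    4 * ((4 * kap * m ^ 2 : ℕ) : ℝ) < lam ^ k ∧
    4 * LL kap e m k ^ 2 * tt kap e m k ^ 2 * e < N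

end Pool.Agent.Work.MP_91e6de_nt.DM
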