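import Mathlib
import Pool.Agent.Work.MP_91e6de_nt.DM.Stmts

set_option autoImplicit false

/-!
# The determinant method along orbits (MP_91e6de): statements, Part B (skew products over a
translation)
-/

namespace Pool.Agent.Work.MP_91e6de_nt.DM

open MvPolynomial NumberField IsDedekindDomain Height Filter Topology

/-- B01 resultant identities -/
def S_Res : Prop := ∀ (K : Type) [Field K] (d : ℕ) (A B : MvPolynomial (Fin 2) K), 1 ≤ d →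
  Sk d A B → ∃ (R : Polynomial K) (P1 Q1 P2 Q2 : MvPolynomial (Fin 2) K), R ≠ 0 ∧
    P1.degreeOf 1 ≤ d - 1 ∧ Q1.degreeOf 1 ≤ d - 1 ∧ P2.degreeOf 1 ≤ d - 1 ∧
    Q2.degreeOf 1 ≤ d - 1 ∧ ∀ (S : Type) [CommRing S] [Algebra K S] (x u w : S),
      Polynomial.aeval x R * u ^ (2 * d - 1) =
        bh (d - 1) P1 x u w * bh d A x u w + bh (d - 1) Q1 x u w * bh d B x u w ∧
      Polynomial.aeval x R * w ^ (2 * d - 1) =
        bh (d - 1) P2 x u w * bh d A x u w + bh (d - 1) Q2 x u w * bh d B x u w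

/-- B02 upper height bound -/
def S_HU : Prop := ∀ (K : Type) [Field K] [NumberField K] (d : ℕ)
  (A B : MvPolynomial (Fin 2) K), A.degreeOf 1 ≤ d → B.degreeOf 1 ≤ d →
    ∃ C : ℝ, 0 ≤ C ∧ ∀ x u w : K, logHeight ![bh d A x u w, bh d B x u w] ≤
      d * logHeight ![u, w] + C * (1 + logHeight₁ x)

/-- B03 lower height bound -/
def S_HL : Prop := ∀ (K : Type) [Field K] [NumberField K] (d : ℕ)
  (A B : MvPolynomial (Fin 2) K), 1 ≤ d → Sk d A B →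
    ∃ (R : Polynomial K) (C : ℝ), R ≠ 0 ∧ 0 ≤ C ∧ ∀ x u w : K, R.eval x ≠ 0 → ![u, w] ≠ 0 →
      d * logHeight ![u, w] ≤
        logHeight ![bh d A x u w, bh d B x u w] + C * (1 + logHeight₁ x)

/-- B04 heights on the base -/
def S_HX : Prop := ∀ (K : Type) [Field K] [NumberField K] (x0 b : K), b ≠ 0 →
  ∃ C : ℝ, 0 ≤ C ∧ ∀ n : ℕ, logHeight₁ (x0 + n * b) ≤ C * Real.log (n + 2) ∧
    Real.log (n + 1) ≤ logHeight₁ (x0 + n * b) + C

/-- B05 dichotomy -/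
def S_Dic : Prop := ∀ (d n1 : ℕ) (a : ℕ → ℝ) (C : ℝ), 2 ≤ d → 0 ≤ C →
  (∀ n, n1 ≤ n → d * a n ≤ a (n + 1) + C * Real.log (n + 2)) →
    (∃ c : ℝ, 0 < c ∧ ∀ᶠ n : ℕ in atTop, c * (d : ℝ) ^ n ≤ a n) ∨
    (∃ C' : ℝ, 0 ≤ C' ∧ ∀ n, n1 ≤ n → a n ≤ C' * Real.log (n + 2))

/-- B06 upper growth -/
def S_UB : Prop := ∀ (d : ℕ) (a : ℕ → ℝ) (C : ℝ), 2 ≤ d → 0 ≤ C →
  (∀ n, a (n + 1) ≤ d * a n + C * Real.log (n + 2)) →
    ∃ C' : ℝ, 0 ≤ C' ∧ ∀ n : ℕ, a n ≤ C' * (d : ℝ) ^ n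

/-- B07 roots of exponential sequences -/
def S_Lim : Prop := ∀ (d c C : ℝ) (a : ℕ → ℝ), 0 < d → 0 < c →
  (∀ᶠ n : ℕ in atTop, c * d ^ n ≤ a n) → (∀ᶠ n : ℕ in atTop, a n ≤ C * d ^ n) →
    Tendsto (fun n : ℕ => a n ^ ((1 : ℝ) / n)) atTop (𝓝 d)

/-- B08 iterates of skew products are reduced of degree `d ^ k` -/
def S_SkIt : Prop := ∀ (K : Type) [Field K] (d : ℕ) (A B : MvPolynomial (Fin 2) K) (b : K),
  1 ≤ d → Sk d A B → ∀ k, Sk (d ^ k) (itY d A B b k).1 (itY d A B b k).2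

/-- B09 `Sk` gives `RD` -/
def S_SkRD : Prop := ∀ (K : Type) [Field K] (D : ℕ) (A B : MvPolynomial (Fin 2) K),
  Sk D A B → RD 1 D A B

/-- B10 the two kinds of iterates -/
def S_ItrY : Prop := ∀ (K : Type) [Field K] (d e : ℕ) (A B : MvPolynomial (Fin 2) K) (b c : K),
  1 ≤ d → Sk d A B → c ≠ 0 → ∀ p : Fin 3 → MvPolynomial (Fin 2) K,
  p = ![C c * ((X 0 + C b) * B), C c * A, C c * B] → (∀ i, (p i).totalDegree ≤ e) →
    ∀ k, itr e p k 2 ≠ 0 ∧ itr e p k 0 = itr e p k 2 * (X 0 + C (k * b)) ∧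
      itr e p k 1 * (itY d A B b k).2 = itr e p k 2 * (itY d A B b k).1

/-- B11 iterates and injective homomorphisms of coefficients -/
def S_MapI : Prop := ∀ (A B : Type) [CommRing A] [CommRing B] (φ : A →+* B),
  Function.Injective φ → ∀ (e : ℕ) (p : Fin 3 → MvPolynomial (Fin 2) A) (k : ℕ) (i : Fin 3),
    map φ (itr e p k i) = itr e (fun i => map φ (p i)) k i

/-- B12 affine slow orbits are not dense -/
def S_T1A : Prop := ∀ (K : Type) [Field K] [NumberField K] (d : ℕ)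
  (A B : MvPolynomial (Fin 2) K) (b : K) (x y : ℕ → K) (C : ℝ), 2 ≤ d → Sk d A B → b ≠ 0 →
  (∀ n, x (n + 1) = x n + b) →
  (∀ n, aeval ![x n, y n] B ≠ 0 ∧ aeval ![x n, y n] B * y (n + 1) = aeval ![x n, y n] A) →
  (∀ n : ℕ, logHeight₁ (y n) ≤ C * Real.log (n + 2)) →
    ∃ G : MvPolynomial (Fin 2) K, G ≠ 0 ∧ ∀ n, aeval ![x n, y n] G = 0

/-- B13 the coordinate `y' = 1 / (y - x ^ L)` -/
def S_Chg : Prop := ∀ (K : Type) [Field K] (d L : ℕ) (A B : MvPolynomial (Fin 2) K) (b : K),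
  1 ≤ d → Sk d A B → ∃ A' B' : MvPolynomial (Fin 2) K, Sk d A' B' ∧
    ∀ x y : K, aeval ![x, y] A' = bh d B x (1 + x ^ L * y) y ∧
      aeval ![x, y] B' =
        bh d A x (1 + x ^ L * y) y - (x + b) ^ L * bh d B x (1 + x ^ L * y) y

/-- B14 back to the homogeneous coordinates -/
def S_Bck : Prop := ∀ (K : Type) [Field K] (L : ℕ) (G' : MvPolynomial (Fin 2) K), G' ≠ 0 →
  ∃ (e : ℕ) (G : MvPolynomial (Fin 2) K), G ≠ 0 ∧ G.degreeOf 1 ≤ e ∧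
    ∀ x u w : K, u - x ^ L * w ≠ 0 → aeval ![x, w / (u - x ^ L * w)] G' = 0 → bh e G x u w = 0

/-- B15 slow orbits are not dense -/
def S_Slw : Prop := ∀ (K : Type) [Field K] [NumberField K] (d : ℕ)
  (A B : MvPolynomial (Fin 2) K) (b : K) (x u w : ℕ → K) (C : ℝ) (n1 : ℕ), 2 ≤ d → Sk d A B →
  b ≠ 0 → (∀ n, x (n + 1) = x n + b) → (∀ n, u (n + 1) = bh d A (x n) (u n) (w n)) →
  (∀ n, w (n + 1) = bh d B (x n) (u n) (w n)) → (∀ n, ![u n, w n] ≠ 0) →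
  (∀ n, n1 ≤ n → logHeight ![u n, w n] ≤ C * Real.log (n + 2)) →
    ∃ (e : ℕ) (G : MvPolynomial (Fin 2) K), G ≠ 0 ∧ G.degreeOf 1 ≤ e ∧
      ∀ n, bh e G (x n) (u n) (w n) = 0

/-- B16 degrees of the iterates -/
def S_DgY : Prop := ∀ (K : Type) [Field K] (d : ℕ) (A B : MvPolynomial (Fin 2) K) (b : K),
  2 ≤ d → Sk d A B → ∃ C : ℕ, ∀ k, (itY d A B b k).1.degreeOf 0 ≤ C * d ^ k ∧
    (itY d A B b k).2.degreeOf 0 ≤ C * d ^ k

/-- The degree of the `n`-th iterate on `ℙ¹ × ℙ¹` (with respect to `O (1, 1)`). -/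
noncomputable def dgY {K : Type} [Field K] (d : ℕ) (A B : MvPolynomial (Fin 2) K) (b : K)
    (n : ℕ) : ℕ :=
  sInf {r | ∃ P Q : MvPolynomial (Fin 2) K, Q ≠ 0 ∧
    P * (itY d A B b n).2 = Q * (itY d A B b n).1 ∧
    r = 1 + max (P.degreeOf 0) (Q.degreeOf 0) + max (P.degreeOf 1) (Q.degreeOf 1)}

/-- B17 the degrees grow like `d ^ n` -/
def S_DgG : Prop := ∀ (K : Type) [Field K] (d : ℕ) (A B : MvPolynomial (Fin 2) K) (b : K),
  2 ≤ d → Sk d A B → ∃ C : ℕ, ∀ n, d ^ n ≤ dgY d A B b n ∧ dgY d A B b n ≤ C * d ^ n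

/-- B18 THEOREM I: Kawaguchi-Silverman for rational skew products over a translation -/
def S_ThI : Prop := ∀ (K : Type) [Field K] [NumberField K] (d : ℕ)
  (A B : MvPolynomial (Fin 2) K) (b : K) (x u w : ℕ → K), 2 ≤ d → Sk d A B → b ≠ 0 →
  (∀ n, x (n + 1) = x n + b) → (∀ n, u (n + 1) = bh d A (x n) (u n) (w n)) →
  (∀ n, w (n + 1) = bh d B (x n) (u n) (w n)) → (∀ n, ![u n, w n] ≠ 0) →
  (∀ (e : ℕ) (G : MvPolynomial (Fin 2) K), G.degreeOf 1 ≤ e →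
    (∀ n, bh e G (x n) (u n) (w n) = 0) → G = 0) →
    Tendsto (fun n : ℕ => (dgY d A B b n : ℝ) ^ ((1 : ℝ) / n)) atTop (𝓝 d) ∧
    Tendsto (fun n : ℕ => ((logHeight₁ (x n) + logHeight ![u n, w n]) /
      Module.finrank ℚ K) ^ ((1 : ℝ) / n)) atTop (𝓝 d)

end Pool.Agent.Work.MP_91e6de_nt.DM
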