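import Mathlib
import Pool.Agent.Work.MP_91e6de_nt.DM.Stmts


set_option autoImplicit false

namespace Pool.Agent.Work.MP_91e6de_nt.DM

open MvPolynomial

namespace BezAuxK

variable {K : Type} [Field K]

/-- Exponent vectors of degree at most `N` and compositions of `N`. -/
noncomputable def degEquiv (N : ℕ) :
    {μ : Fin 2 →₀ ℕ // (μ.sum fun _ e => e) ≤ N} ≃ {P : Option (Fin 2) → ℕ // ∑ i, P i = N} where
  toFun μ := ⟨fun o => o.elim (N - ∑ i, μ.1 i) μ.1, by
    have h := μ.2
    rw [Finsupp.sum_fintype _ _ (fun _ => rfl)] at h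
    rw [Fintype.sum_option]
    simp only [Option.elim]
    omega⟩
  invFun P := ⟨Finsupp.equivFunOnFinite.symm (fun i => P.1 (some i)), by
    have h := P.2
    rw [Fintype.sum_option] at h
    rw [Finsupp.sum_fintype _ _ (fun _ => rfl)]
    simp only [Finsupp.equivFunOnFinite_symm_apply_apply]
    omega⟩
  left_inv μ := by
    ext i
    simp
  right_inv P := by
    have h := P.2
    rw [Fintype.sum_option] at h
    apply Subtype.ext
    funext o
    cases o with
    | none =>
      simp only [Option.elim, Finsupp.equivFunOnFinite_symm_apply_apply]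
      omega
    | some i => simp

theorem card_deg (N : ℕ) : Nat.card {μ : Fin 2 →₀ ℕ // (μ.sum fun _ e => e) ≤ N} =
    (N + 2).choose 2 := by
  classical
  rw [Nat.card_congr (degEquiv N),
    Nat.card_congr (Sym.equivNatSumOfFintype (Option (Fin 2)) N).symm, Nat.card_eq_fintype_card,
    Sym.card_sym_eq_multichoose, Fintype.card_option, Fintype.card_fin, Nat.multichoose_eq]
  have e : 2 + 1 + N - 1 = N + 2 := by omega
  rw [e, Nat.choose_symm_add]

/-- the space of polynomials of degree at most `N` -/
noncomputable abbrev V (N : ℕ) : Submodule K (MvPolynomial (Fin 2) K) :=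
  restrictTotalDegree (Fin 2) K N

theorem mem_V {N : ℕ} {q : MvPolynomial (Fin 2) K} (h : q.totalDegree ≤ N) : q ∈ V N :=
  (mem_restrictTotalDegree _ _ _).2 h

theorem deg_V {N : ℕ} {q : MvPolynomial (Fin 2) K} (h : q ∈ V N) : q.totalDegree ≤ N :=
  (mem_restrictTotalDegree _ _ _).1 h

theorem finrank_deg (N : ℕ) : Module.finrank K (V (K := K) N) = (N + 2).choose 2 := by
  rw [← card_deg N]
  exact Module.finrank_eq_nat_card_basis (basisRestrictSupport K _)

theorem two_mul_choose (n : ℕ) : 2 * (n + 2).choose 2 = (n + 2) * (n + 1) := by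
  rw [Nat.choose_two_right]
  have := Nat.even_mul_pred_self (n + 2)
  rw [Nat.two_mul_div_two_of_even this]
  rfl

theorem sep (Z : Finset (Fin 2 → K)) (a : Fin 2 → K) :
    ∃ p : MvPolynomial (Fin 2) K, eval a p = 1 ∧ ∀ b ∈ Z, b ≠ a → eval b p = 0 := by
  classical
  have h1 : ∀ b : Fin 2 → K, b ≠ a →
      ∃ q : MvPolynomial (Fin 2) K, eval a q = 1 ∧ eval b q = 0 := by
    intro b hb
    obtain ⟨i, hi⟩ := Function.ne_iff.1 hb
    refine ⟨C (a i - b i)⁻¹ * (X i - C (b i)), ?_, ?_⟩
    · simp only [map_mul, map_sub, eval_C, eval_X]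
      exact inv_mul_cancel₀ (sub_ne_zero.2 hi.symm)
    · simp
  choose! q hq using h1
  refine ⟨∏ b ∈ Z.erase a, q b, ?_, ?_⟩
  · rw [map_prod]
    exact Finset.prod_eq_one (fun b hb => (hq b (Finset.ne_of_mem_erase hb)).1)
  · intro b hb hba
    rw [map_prod]
    exact Finset.prod_eq_zero (Finset.mem_erase.2 ⟨hba, hb⟩) (hq b hba).2

theorem main (f g : MvPolynomial (Fin 2) K) (hfg : IsRelPrime f g) (hf0 : f ≠ 0)
    (Z : Finset (Fin 2 → K)) (hZ : ∀ z ∈ Z, eval z f = 0 ∧ eval z g = 0) :
    Z.card ≤ f.totalDegree * g.totalDegree := by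
  classical
  set d₁ := f.totalDegree with hd₁
  set d₂ := g.totalDegree with hd₂
  choose p hp using fun a : Fin 2 → K => sep Z a
  set M := Z.sup (fun a => (p a).totalDegree) with hM
  have hMp : ∀ a ∈ Z, (p a).totalDegree ≤ M := fun a ha =>
    Finset.le_sup (f := fun a => (p a).totalDegree) ha
  -- evaluation
  let E : V (M + d₁ + d₂) →ₗ[K] (Z → K) :=
    { toFun := fun q a => eval a.1 q.1
      map_add' := by intro x y; ext a; simp
      map_smul' := by intro c x; ext a; simp [smul_eval] }
  have hE : Function.Surjective E := by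
    intro c
    refine ⟨⟨∑ a : Z, C (c a) * p a.1, ?_⟩, ?_⟩
    · apply Submodule.sum_mem
      intro a _
      apply mem_V
      refine (totalDegree_mul _ _).trans ?_
      rw [totalDegree_C]
      have := hMp a.1 a.2
      omega
    · ext b
      change eval b.1 (∑ a : Z, C (c a) * p a.1) = c b
      rw [map_sum, Finset.sum_eq_single b]
      · rw [map_mul, eval_C, (hp b.1).1, mul_one]
      · intro a _ hab
        rw [map_mul, (hp a.1).2 b.1 b.2 (fun h => hab (Subtype.ext h.symm)), mul_zero]
      · intro h; exact absurd (Finset.mem_univ _) h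
  -- the map `(u, v) ↦ u f + v g`
  let Φ : (V (M + d₂) × V (M + d₁)) →ₗ[K] V (M + d₁ + d₂) :=
    { toFun := fun w => ⟨w.1.1 * f + w.2.1 * g, by
        have h1 := deg_V w.1.2
        have h2 := deg_V w.2.2
        exact Submodule.add_mem _ (mem_V ((totalDegree_mul _ _).trans (by omega)))
          (mem_V ((totalDegree_mul _ _).trans (by omega)))⟩
      map_add' := by
        intro x y
        apply Subtype.ext
        simp only [Prod.fst_add, Prod.snd_add, Submodule.coe_add]
        ring
      map_smul' := by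
        intro c x
        apply Subtype.ext
        simp only [Prod.smul_fst, Prod.smul_snd, Submodule.coe_smul, smul_mul_assoc,
          RingHom.id_apply, smul_add] }
  let Ψ : V M →ₗ[K] (V (M + d₂) × V (M + d₁)) :=
    { toFun := fun w => (⟨w.1 * g, by
        have h1 := deg_V w.2
        exact mem_V ((totalDegree_mul _ _).trans (by omega))⟩, ⟨-(w.1 * f), by
        have h1 := deg_V w.2
        apply mem_V
        rw [totalDegree_neg]
        exact (totalDegree_mul _ _).trans (by omega)⟩)
      map_add' := by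
        intro x y
        apply Prod.ext <;> apply Subtype.ext <;>
          simp only [Prod.fst_add, Prod.snd_add, Submodule.coe_add] <;> ring
      map_smul' := by
        intro c x
        apply Prod.ext <;> apply Subtype.ext <;>
          simp only [Prod.smul_fst, Prod.smul_snd, Submodule.coe_smul, smul_mul_assoc,
          RingHom.id_apply, smul_neg] }
  have hker : LinearMap.ker Φ ≤ LinearMap.range Ψ := by
    rintro ⟨⟨u, hu⟩, ⟨v, hv⟩⟩ huv
    rw [LinearMap.mem_ker] at huv
    have h1 : u * f + v * g = 0 := congrArg Subtype.val huv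
    have h2 : f ∣ g * v := ⟨-u, by linear_combination h1⟩
    obtain ⟨w, hw⟩ := hfg.dvd_of_dvd_mul_left h2
    have hu2 : u = -w * g := by
      apply mul_right_cancel₀ hf0
      rw [hw] at h1
      linear_combination h1
    have hwdeg : (-w).totalDegree ≤ M := by
      by_cases hw0 : w = 0
      · simp [hw0]
      · have h3 := totalDegree_mul_of_isDomain hf0 hw0
        rw [← hw, ← hd₁] at h3
        have h4 := deg_V hv
        rw [totalDegree_neg]
        omega
    refine ⟨⟨-w, mem_V hwdeg⟩, ?_⟩
    apply Prod.ext <;> apply Subtype.ext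
    · change -w * g = u
      exact hu2.symm
    · change -(-w * f) = v
      rw [hw]; ring
  have hrange : LinearMap.range Φ ≤ LinearMap.ker E := by
    rintro _ ⟨w, rfl⟩
    rw [LinearMap.mem_ker]
    ext a
    change eval a.1 (w.1.1 * f + w.2.1 * g) = 0
    rw [map_add, map_mul, map_mul, (hZ a.1 a.2).1, (hZ a.1 a.2).2]
    ring
  have r1 := LinearMap.finrank_range_add_finrank_ker E
  have r2 := LinearMap.finrank_range_add_finrank_ker Φ
  have r3 : Module.finrank K (LinearMap.ker Φ) ≤ Module.finrank K (V M) :=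
    (Submodule.finrank_mono hker).trans (LinearMap.finrank_range_le Ψ)
  have r4 := Submodule.finrank_mono hrange
  rw [LinearMap.range_eq_top.2 hE, finrank_top, Module.finrank_fintype_fun_eq_card,
    Fintype.card_coe] at r1
  rw [Module.finrank_prod] at r2
  simp only [finrank_deg] at r1 r2 r3
  have c1 := two_mul_choose (M + d₁ + d₂)
  have c2 := two_mul_choose (M + d₂)
  have c3 := two_mul_choose (M + d₁)
  have c4 := two_mul_choose M
  have key : 2 * Z.card + (M + d₂ + 2) * (M + d₂ + 1) + (M + d₁ + 2) * (M + d₁ + 1) ≤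
      (M + d₁ + d₂ + 2) * (M + d₁ + d₂ + 1) + (M + 2) * (M + 1) := by
    rw [← c1, ← c2, ← c3, ← c4]; omega
  nlinarith [key]

end BezAuxK

theorem pr_Bez : S_Bez := by
  intro K _ E A hE hEA Z hZ
  have hrel : IsRelPrime E A := hE.isRelPrime_iff_not_dvd.2 hEA
  refine BezAuxK.main E A hrel hE.ne_zero Z ?_
  intro z hz
  have := hZ z hz
  simpa [MvPolynomial.coe_aeval_eq_eval] using this

end Pool.Agent.Work.MP_91e6de_nt.DM
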