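import Mathlib
import Pool.Agent.Work.MP_91e6de_nt.Bd.B03

set_option autoImplicit false

namespace Pool.Agent.Work.MP_91e6de_nt.DM

open MvPolynomial NumberField IsDedekindDomain

theorem CoD_aeval {A : Type} [CommRing A] (e : ℕ) (F : MvPolynomial (Fin 3) A)
    (hF : F.IsHomogeneous e) (f : Fin 3 → MvPolynomial (Fin 2) A)
    (hf : ∀ i, (f i).totalDegree ≤ 1) : (aeval f F).totalDegree ≤ e := by
  rw [aeval_def, eval₂_eq']
  refine totalDegree_finsetSum_le fun m hm => ?_
  have hdeg : ∑ i, m i = e := by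
    have h := hF (mem_support_iff.1 hm)
    rw [← h, Finsupp.weight_apply, Finsupp.sum_fintype]
    · simp
    · intro i; simp
  refine le_trans (totalDegree_mul _ _) ?_
  have h1 : (algebraMap A (MvPolynomial (Fin 2) A) (coeff m F)).totalDegree = 0 :=
    totalDegree_C _
  rw [h1, zero_add]
  refine le_trans (totalDegree_finset_prod _ _) ?_
  rw [← hdeg]
  refine Finset.sum_le_sum fun i _ => ?_
  refine le_trans (totalDegree_pow _ _) ?_
  calc m i * (f i).totalDegree ≤ m i * 1 := Nat.mul_le_mul_left _ (hf i)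
    _ = m i := mul_one _

theorem CoD_nat {A : Type} [CommRing A] (e a : ℕ) (p : MvPolynomial (Fin 2) A)
    (hp : p.totalDegree ≤ e) : ((a : MvPolynomial (Fin 2) A) * p).totalDegree ≤ e := by
  refine le_trans (totalDegree_mul _ _) ?_
  have h1 : ((a : MvPolynomial (Fin 2) A)).totalDegree = 0 := by
    have : (a : MvPolynomial (Fin 2) A) = C (a : A) := (map_natCast C a).symm
    rw [this, totalDegree_C]
  rw [h1, zero_add]
  exact hp

theorem CoD_X {A : Type} [CommRing A] (j : Fin 2) :
    (X j : MvPolynomial (Fin 2) A).totalDegree ≤ 1 := by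
  refine totalDegree_le_of_support_subset (q := X j) (le_refl _) |>.trans ?_
  rcases subsingleton_or_nontrivial A with h | h
  · rw [Subsingleton.elim (X j : MvPolynomial (Fin 2) A) 0, totalDegree_zero]
    exact Nat.zero_le _
  · rw [totalDegree_X]

theorem pr_CoD : S_CoD := by
  intro A _ e a b F hF i
  have hdh : ∀ j, (dh a b (F j)).totalDegree ≤ e := by
    intro j
    refine CoD_aeval e (F j) (hF j) _ ?_
    intro l
    have hone : (1 : MvPolynomial (Fin 2) A).totalDegree ≤ 1 := by
      rw [totalDegree_one]; exact Nat.zero_le _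
    fin_cases l
    · exact CoD_X 0
    · exact CoD_X 1
    · show (1 - (a : MvPolynomial (Fin 2) A) * X 0 - (b : MvPolynomial (Fin 2) A) * X 1).totalDegree
        ≤ 1
      refine le_trans (totalDegree_sub _ _) (max_le ?_ (CoD_nat 1 b _ (CoD_X 1)))
      exact le_trans (totalDegree_sub _ _) (max_le hone (CoD_nat 1 a _ (CoD_X 0)))
  fin_cases i
  · exact hdh 0
  · exact hdh 1
  · show (dh a b (F 2) + (a : MvPolynomial (Fin 2) A) * dh a b (F 0) +
      (b : MvPolynomial (Fin 2) A) * dh a b (F 1)).totalDegree ≤ e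
    refine le_trans (totalDegree_add _ _) (max_le ?_ (CoD_nat e b _ (hdh 1)))
    exact le_trans (totalDegree_add _ _) (max_le (hdh 2) (CoD_nat e a _ (hdh 0)))

end Pool.Agent.Work.MP_91e6de_nt.DM
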