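import Mathlib
import Pool.Agent.Work.MP_91e6de_nt.Bd.B03

set_option autoImplicit false

/-!
# C05: heights in the chart
-/

namespace Pool.Agent.Work.MP_91e6de_nt.DM

open MvPolynomial NumberField IsDedekindDomain Height Filter Topology

theorem CoH_nat {K : Type} [Field K] [NumberField K] (n : ℕ) (L : ℝ) (hL : Real.log n ≤ L) :
    logHeight₁ (n : K) ≤ totalWeight K * L := by
  have h1 := logHeight₁_sum_le (K := K) (Finset.range n) (fun _ => (1 : K))
  simp only [Finset.sum_const, Finset.card_range, nsmul_eq_mul, mul_one, logHeight₁_one,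
    mul_zero, add_zero] at h1
  exact h1.trans (mul_le_mul_of_nonneg_left hL (Nat.cast_nonneg _))

theorem CoH_three {K : Type} [Field K] [NumberField K] (a b : K) :
    logHeight ![1, a, b] ≤ logHeight₁ a + logHeight₁ b := by
  have h1 : logHeight (fun p : Fin 2 × Fin 2 => ![a, 1] p.1 * ![b, 1] p.2) =
      logHeight ![a, 1] + logHeight ![b, 1] := by
    refine logHeight_fun_mul_eq ?_ ?_
    · intro h
      have := congrFun h 1
      simp at this
    · intro h
      have := congrFun h 1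
      simp at this
  have h2 : (![1, a, b] : Fin 3 → K) =
      (fun p : Fin 2 × Fin 2 => ![a, 1] p.1 * ![b, 1] p.2) ∘
        (![(1, 1), (0, 1), (1, 0)] : Fin 3 → Fin 2 × Fin 2) := by
    funext i
    fin_cases i <;> simp
  rw [logHeight₁_eq_logHeight, logHeight₁_eq_logHeight, ← h1, h2]
  exact logHeight_comp_le _ _

theorem CoH_lin {K : Type} [Field K] [NumberField K] (a b : K) (P : Fin 3 → K) (i : Fin 3) :
    logHeight ![P i, P 2 + a * P 0 + b * P 1] ≤
      totalWeight K * Real.log 3 + (logHeight₁ a + logHeight₁ b) + logHeight P := by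
  have h1 := logHeight_linearMap_apply_le (K := K)
    (fun ji : Fin 2 × Fin 3 => (![(fun i' : Fin 3 => if i' = i then (1 : K) else 0),
      ![a, b, 1]] : Fin 2 → Fin 3 → K) ji.1 ji.2) P
  have h2 : (fun j : Fin 2 => ∑ i', (![(fun i' : Fin 3 => if i' = i then (1 : K) else 0),
      ![a, b, 1]] : Fin 2 → Fin 3 → K) j i' * P i') = ![P i, P 2 + a * P 0 + b * P 1] := by
    funext j
    fin_cases j
    · simp
    · simp [Fin.sum_univ_three]
      ring
  rw [h2] at h1
  have h3 : logHeight (fun ji : Fin 2 × Fin 3 =>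
      (![(fun i' : Fin 3 => if i' = i then (1 : K) else 0),
      ![a, b, 1]] : Fin 2 → Fin 3 → K) ji.1 ji.2) ≤ logHeight₁ a + logHeight₁ b := by
    refine le_trans ?_ (CoH_three a b)
    have h4 : logHeight (![0, 1, a, b] : Fin 4 → K) = logHeight (![1, a, b] : Fin 3 → K) :=
      logHeight_cons_zero _
    rw [← h4]
    have h5 : (fun ji : Fin 2 × Fin 3 =>
        (![(fun i' : Fin 3 => if i' = i then (1 : K) else 0),
        ![a, b, 1]] : Fin 2 → Fin 3 → K) ji.1 ji.2) = (![0, 1, a, b] : Fin 4 → K) ∘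
        (fun ji : Fin 2 × Fin 3 => (![(fun i' : Fin 3 => if i' = i then (1 : Fin 4) else 0),
        ![2, 3, 1]] : Fin 2 → Fin 3 → Fin 4) ji.1 ji.2) := by
      funext ⟨j, i'⟩
      fin_cases j
      · by_cases h : i' = i <;> simp [h]
      · fin_cases i' <;> simp
    rw [h5]
    exact logHeight_comp_le _ _
  have h6 : (Nat.card (Fin 3) : ℝ) = 3 := by simp
  rw [h6] at h1
  linarith

/-- the polynomial in four variables -/
noncomputable def CoH_Q {K : Type} [Field K] [NumberField K]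
    (F : Fin 3 → MvPolynomial (Fin 3) (𝓞 K)) : MvPolynomial (Fin 4) K :=
  aeval (![X 0, X 1, 1 - X 2 * X 0 - X 3 * X 1] : Fin 3 → MvPolynomial (Fin 4) K) (F 2) +
    X 2 * aeval (![X 0, X 1, 1 - X 2 * X 0 - X 3 * X 1] : Fin 3 → MvPolynomial (Fin 4) K) (F 0) +
    X 3 * aeval (![X 0, X 1, 1 - X 2 * X 0 - X 3 * X 1] : Fin 3 → MvPolynomial (Fin 4) K) (F 1)

theorem CoH_dh {K : Type} [Field K] [NumberField K] (a b : ℕ) (z : Fin 2 → K)
    (G : MvPolynomial (Fin 3) (𝓞 K)) :
    aeval z (dh a b G) = aeval (![z 0, z 1, 1 - a * z 0 - b * z 1] : Fin 3 → K) G := by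
  unfold dh
  rw [← AlgHom.comp_apply, comp_aeval]
  congr 2
  funext i
  fin_cases i <;> simp

theorem CoH_Qdh {K : Type} [Field K] [NumberField K] (a b : ℕ) (z : Fin 2 → K)
    (G : MvPolynomial (Fin 3) (𝓞 K)) :
    aeval (![z 0, z 1, a, b] : Fin 4 → K)
      (aeval (![X 0, X 1, 1 - X 2 * X 0 - X 3 * X 1] : Fin 3 → MvPolynomial (Fin 4) K) G) =
      aeval (![z 0, z 1, 1 - a * z 0 - b * z 1] : Fin 3 → K) G := by
  have h1 : aeval (![z 0, z 1, a, b] : Fin 4 → K)
      (aeval (![X 0, X 1, 1 - X 2 * X 0 - X 3 * X 1] : Fin 3 → MvPolynomial (Fin 4) K) G) =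
      ((aeval (![z 0, z 1, a, b] : Fin 4 → K) : MvPolynomial (Fin 4) K →ₐ[K] K).restrictScalars
        (𝓞 K)) (aeval (![X 0, X 1, 1 - X 2 * X 0 - X 3 * X 1] :
          Fin 3 → MvPolynomial (Fin 4) K) G) := rfl
  rw [h1, ← AlgHom.comp_apply, comp_aeval]
  congr 2
  funext i
  fin_cases i <;> simp

theorem CoH_val {K : Type} [Field K] [NumberField K] (F : Fin 3 → MvPolynomial (Fin 3) (𝓞 K))
    (a b : ℕ) (z : Fin 2 → K) :
    aeval z (pF a b F 2) = aeval (![z 0, z 1, a, b] : Fin 4 → K) (CoH_Q F) := by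
  have h1 : pF a b F 2 = dh a b (F 2) + (a : MvPolynomial (Fin 2) (𝓞 K)) * dh a b (F 0) +
      (b : MvPolynomial (Fin 2) (𝓞 K)) * dh a b (F 1) := rfl
  rw [h1, CoH_Q]
  simp only [map_add, map_mul, map_natCast, CoH_dh, CoH_Qdh, aeval_X]
  simp

theorem pr_CoH (h : S_PoH) : S_CoH := by
  intro K _ _ F
  obtain ⟨C1, hC1, hQ⟩ := h K (Fin 4) (CoH_Q F)
  obtain ⟨T, hT⟩ : ∃ T : ℝ, T = totalWeight K := ⟨_, rfl⟩
  have hT0 : 0 ≤ T := by rw [hT]; exact Nat.cast_nonneg _
  have hl3 : 0 ≤ Real.log 3 := Real.log_nonneg (by norm_num)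
  refine ⟨(C1 + 1) * (3 + 2 * T * Real.log 3 + 6 * T), by positivity, ?_⟩
  intro a b P hZ
  obtain ⟨L, hL⟩ : ∃ L : ℝ, L = Real.log (a + b + 1) := ⟨_, rfl⟩
  have hL0 : 0 ≤ L := by
    rw [hL]
    apply Real.log_nonneg
    have h1 : (0 : ℝ) ≤ a := Nat.cast_nonneg a
    have h2 : (0 : ℝ) ≤ b := Nat.cast_nonneg b
    linarith
  have hlog : ∀ n : ℕ, (n : ℝ) ≤ a + b + 1 → Real.log n ≤ L := by
    intro n hn
    rcases Nat.eq_zero_or_pos n with h0 | h0
    · rw [h0]; simpa using hL0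
    · rw [hL]
      exact Real.log_le_log (by exact_mod_cast h0) hn
  have ha : logHeight₁ (a : K) ≤ T * L := by
    rw [hT]
    exact CoH_nat a L (hlog a (by
      have h2 : (0 : ℝ) ≤ b := Nat.cast_nonneg b
      linarith))
  have hb : logHeight₁ (b : K) ≤ T * L := by
    rw [hT]
    exact CoH_nat b L (hlog b (by
      have h2 : (0 : ℝ) ≤ a := Nat.cast_nonneg a
      linarith))
  have hP : 0 ≤ logHeight P := logHeight_nonneg P
  have hTL : 0 ≤ T * L := mul_nonneg hT0 hL0
  have hT3 : 0 ≤ T * Real.log 3 := mul_nonneg hT0 hl3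
  have key : ∀ i : Fin 2, logHeight₁ (ch a b P i) ≤
      T * Real.log 3 + 2 * (T * L) + logHeight P := by
    intro i
    have h2 : ∀ i' : Fin 3, logHeight₁ (P i' / (P 2 + a * P 0 + b * P 1)) ≤
        T * Real.log 3 + 2 * (T * L) + logHeight P := by
      intro i'
      rw [logHeight₁_div_eq_logHeight]
      have h3 := CoH_lin (a : K) (b : K) P i'
      rw [← hT] at h3
      linarith
    fin_cases i
    · exact h2 0
    · exact h2 1
  rw [← hL]
  constructor
  · intro i
    refine (key i).trans ?_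
    have e1 : T * Real.log 3 + 2 * (T * L) + logHeight P ≤
        (3 + 2 * T * Real.log 3 + 6 * T) * (1 + logHeight P + L) := by
      nlinarith [mul_nonneg hT3 hP, mul_nonneg hT3 hL0, mul_nonneg hT0 hP]
    have e2 : 0 ≤ (3 + 2 * T * Real.log 3 + 6 * T) * (1 + logHeight P + L) := by positivity
    calc T * Real.log 3 + 2 * (T * L) + logHeight P
        ≤ (3 + 2 * T * Real.log 3 + 6 * T) * (1 + logHeight P + L) := e1
      _ ≤ (C1 + 1) * ((3 + 2 * T * Real.log 3 + 6 * T) * (1 + logHeight P + L)) := by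
          nlinarith [mul_nonneg hC1 e2]
      _ = _ := by ring
  · rw [CoH_val]
    have h4 := hQ (![ch a b P 0, ch a b P 1, a, b] : Fin 4 → K)
    refine h4.trans ?_
    have h5 : ∑ i, logHeight₁ ((![ch a b P 0, ch a b P 1, a, b] : Fin 4 → K) i) =
        logHeight₁ (ch a b P 0) + logHeight₁ (ch a b P 1) + logHeight₁ (a : K) +
          logHeight₁ (b : K) := by
      simp [Fin.sum_univ_four]
    rw [h5]
    have h6 := key 0
    have h7 := key 1
    have e1 : 1 + (logHeight₁ (ch a b P 0) + logHeight₁ (ch a b P 1) + logHeight₁ (a : K) +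
          logHeight₁ (b : K)) ≤ (3 + 2 * T * Real.log 3 + 6 * T) * (1 + logHeight P + L) := by
      nlinarith [mul_nonneg hT3 hP, mul_nonneg hT3 hL0, mul_nonneg hT0 hP]
    have e2 : 0 ≤ (3 + 2 * T * Real.log 3 + 6 * T) * (1 + logHeight P + L) := by positivity
    calc C1 * (1 + (logHeight₁ (ch a b P 0) + logHeight₁ (ch a b P 1) + logHeight₁ (a : K) +
          logHeight₁ (b : K)))
        ≤ C1 * ((3 + 2 * T * Real.log 3 + 6 * T) * (1 + logHeight P + L)) :=
          mul_le_mul_of_nonneg_left e1 hC1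
      _ ≤ (C1 + 1) * ((3 + 2 * T * Real.log 3 + 6 * T) * (1 + logHeight P + L)) := by
          nlinarith
      _ = _ := by ring

end Pool.Agent.Work.MP_91e6de_nt.DM
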