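import Mathlib
import Pool.Agent.Work.MP_91e6de_nt.Bd.B03

set_option autoImplicit false

/-!
# Item CoO: orbits in the chart
-/

namespace Pool.Agent.Work.MP_91e6de_nt.DM

open MvPolynomial NumberField IsDedekindDomain

theorem CoO_hom {A K : Type} [CommRing A] [Field K] [Algebra A K] (e : ℕ)
    (F : MvPolynomial (Fin 3) A) (hF : F.IsHomogeneous e) (c : K) (P : Fin 3 → K) :
    aeval (fun i => c * P i) F = c ^ e * aeval P F := by
  rw [aeval_def, aeval_def, eval₂_eq', eval₂_eq', Finset.mul_sum]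
  refine Finset.sum_congr rfl fun m hm => ?_
  have h1 : ∑ i, m i = e := by
    have h2 := hF (mem_support_iff.1 hm)
    have h3 : m.degree = Finsupp.weight 1 m := by
      rw [Finsupp.degree_eq_weight_one]
      rfl
    rw [← h3, Finsupp.degree_eq_sum] at h2
    exact h2
  simp only [mul_pow, Finset.prod_mul_distrib, Finset.prod_pow_eq_pow_sum, h1]
  ring

theorem CoO_dh {A K : Type} [CommRing A] [Field K] [Algebra A K] (e a b : ℕ)
    (F : MvPolynomial (Fin 3) A) (hF : F.IsHomogeneous e) (P : Fin 3 → K)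
    (hZ : P 2 + a * P 0 + b * P 1 ≠ 0) :
    aeval (ch a b P) (dh a b F) = (P 2 + a * P 0 + b * P 1)⁻¹ ^ e * aeval P F := by
  rw [← CoO_hom e F hF]
  unfold dh
  have h1 : aeval (ch a b P) (aeval ![X 0, X 1, 1 - (a : MvPolynomial (Fin 2) A) * X 0 -
      (b : MvPolynomial (Fin 2) A) * X 1] F) =
      aeval (fun i => aeval (ch a b P) ((![X 0, X 1, 1 - (a : MvPolynomial (Fin 2) A) * X 0 -
        (b : MvPolynomial (Fin 2) A) * X 1] : Fin 3 → MvPolynomial (Fin 2) A) i)) F := by
    rw [← comp_aeval_apply]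
  rw [h1]
  congr 2
  funext i
  fin_cases i
  · simp [ch]
    field_simp
  · simp [ch]
    field_simp
  · simp [ch]
    field_simp
    ring

theorem pr_CoO : S_CoO := by
  intro A K _ _ _ e M a b F P hF hP hZ n hn
  have h0 := hZ n hn.le
  have h1 := hZ (n + 1) hn
  have e2 : aeval (ch a b (P n)) (pF a b F 2) =
      (P n 2 + a * P n 0 + b * P n 1)⁻¹ ^ e *
        (P (n + 1) 2 + a * P (n + 1) 0 + b * P (n + 1) 1) := by
    have h2 : pF a b F 2 = dh a b (F 2) + (a : MvPolynomial (Fin 2) A) * dh a b (F 0) +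
      (b : MvPolynomial (Fin 2) A) * dh a b (F 1) := rfl
    rw [h2, map_add, map_add, map_mul, map_mul, map_natCast, map_natCast,
      CoO_dh e a b _ (hF 2) _ h0, CoO_dh e a b _ (hF 0) _ h0, CoO_dh e a b _ (hF 1) _ h0,
      hP n 2, hP n 0, hP n 1]
    ring
  refine ⟨?_, fun i => ?_⟩
  · rw [e2]
    exact mul_ne_zero (pow_ne_zero _ (inv_ne_zero h0)) h1
  · rw [e2]
    fin_cases i
    · show _ * (P (n + 1) 0 / (P (n + 1) 2 + a * P (n + 1) 0 + b * P (n + 1) 1)) =
        aeval (ch a b (P n)) (dh a b (F 0))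
      rw [CoO_dh e a b _ (hF 0) _ h0, ← hP n 0]
      field_simp
    · show _ * (P (n + 1) 1 / (P (n + 1) 2 + a * P (n + 1) 0 + b * P (n + 1) 1)) =
        aeval (ch a b (P n)) (dh a b (F 1))
      rw [CoO_dh e a b _ (hF 1) _ h0, ← hP n 1]
      field_simp

end Pool.Agent.Work.MP_91e6de_nt.DM
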