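import Mathlib
import Pool.Agent.Work.MP_91e6de_nt.Bd.B03

set_option autoImplicit false

/-!
# The determinant method along orbits (MP_91e6de): item Hom
-/

namespace Pool.Agent.Work.MP_91e6de_nt.DM

open MvPolynomial NumberField IsDedekindDomain Height Filter Topology

/-- algebra homomorphisms and `hsub` -/
theorem Hom_map {A S S' : Type} [CommRing A] [CommRing S] [Algebra A S] [CommRing S']
    [Algebra A S'] (φ : S →ₐ[A] S') (e : ℕ) (p : MvPolynomial (Fin 2) A) (u v w : S) :
    φ (hsub e p u v w) = hsub e p (φ u) (φ v) (φ w) := by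
  unfold hsub
  simp only [map_sum, map_mul, map_pow, AlgHom.commutes]

theorem Hom_one {A : Type} [CommRing A] (e : ℕ) (p : MvPolynomial (Fin 2) A) :
    hsub e p (X 0 : MvPolynomial (Fin 2) A) (X 1) 1 = p := by
  unfold hsub
  conv_rhs => rw [p.as_sum]
  refine Finset.sum_congr rfl fun m _ => ?_
  rw [monomial_eq, Finsupp.prod_fintype _ _ (fun i => pow_zero _), Fin.prod_univ_two, one_pow,
    mul_one]
  rfl

/-- degrees of values of forms -/
theorem Hom_scale {K L : Type} [Field K] [Field L] [Algebra K L] {σ : Type} [Fintype σ]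
    (φ : MvPolynomial σ K) (r : ℕ) (hφ : φ.IsHomogeneous r) (c : L) (x : σ → L) :
    aeval (fun i => c * x i) φ = c ^ r * aeval x φ := by
  rw [aeval_def, aeval_def, eval₂_eq', eval₂_eq', Finset.mul_sum]
  refine Finset.sum_congr rfl fun m hm => ?_
  have h1 : ∑ i, m i = r := by
    have := hφ (mem_support_iff.1 hm)
    rw [Finsupp.weight_apply, Finsupp.sum_fintype _ _ (fun i => by simp)] at this
    simpa using this
  rw [← h1, ← Finset.prod_pow_eq_pow_sum, mul_left_comm, ← Finset.prod_mul_distrib]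
  simp only [mul_pow]

theorem Hom_aux {L : Type} [Field L] (z x y w : L) (hz : z ≠ 0) (a b : L)
    (h : z = w + a * x + b * y) : 1 - a * (x / z) - b * (y / z) = w / z := by
  rw [eq_div_iff hz, sub_mul, sub_mul, one_mul, mul_assoc, mul_assoc, div_mul_cancel₀ _ hz,
    div_mul_cancel₀ _ hz, h]
  ring

section

variable {K : Type} [Field K]

/-- the third coordinate -/
noncomputable def Hom_Z (K : Type) [Field K] (a b : ℕ) : MvPolynomial (Fin 3) K :=
  X 2 + (a : MvPolynomial (Fin 3) K) * X 0 + (b : MvPolynomial (Fin 3) K) * X 1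

theorem Hom_Z_hom (a b : ℕ) : (Hom_Z K a b).IsHomogeneous 1 := by
  unfold Hom_Z
  have h1 : ∀ (n : ℕ) (i : Fin 3), ((n : MvPolynomial (Fin 3) K) * X i).IsHomogeneous 1 := by
    intro n i
    have h2 : (n : MvPolynomial (Fin 3) K) = C (n : K) := (map_natCast C n).symm
    rw [h2]
    exact (isHomogeneous_X K i).C_mul _
  exact ((isHomogeneous_X K 2).add (h1 a 0)).add (h1 b 1)

theorem Hom_dh_Z (a b : ℕ) : dh a b (Hom_Z K a b) = 1 := by
  unfold dh Hom_Z
  simp only [map_add, map_mul, map_natCast, aeval_X]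
  simp
  ring

theorem Hom_Z_ne (a b : ℕ) : Hom_Z K a b ≠ 0 := by
  intro h
  have h1 := Hom_dh_Z (K := K) a b
  rw [h] at h1
  simp [dh] at h1

theorem Hom_deg (a b r : ℕ) (Φ : MvPolynomial (Fin 3) K) (hΦ : Φ.IsHomogeneous r) :
    (dh a b Φ).totalDegree ≤ r := by
  unfold dh
  rw [aeval_def, eval₂_eq']
  refine totalDegree_finsetSum_le fun m hm => ?_
  have h1 : ∑ i, m i = r := by
    have := hΦ (mem_support_iff.1 hm)
    rw [Finsupp.weight_apply, Finsupp.sum_fintype _ _ (fun i => by simp)] at this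
    simpa using this
  have h2 : ∀ i : Fin 3, ((![X 0, X 1, 1 - (a : MvPolynomial (Fin 2) K) * X 0 -
      (b : MvPolynomial (Fin 2) K) * X 1] : Fin 3 → MvPolynomial (Fin 2) K) i).totalDegree ≤ 1 := by
    have h3 : ∀ (n : ℕ) (i : Fin 2),
        ((n : MvPolynomial (Fin 2) K) * X i).totalDegree ≤ 1 := by
      intro n i
      have h4 : (n : MvPolynomial (Fin 2) K) = C (n : K) := (map_natCast C n).symm
      rw [h4]
      refine (totalDegree_mul _ _).trans ?_
      rw [totalDegree_C, totalDegree_X]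
    intro i
    fin_cases i
    · exact (totalDegree_X (R := K) (0 : Fin 2)).le
    · exact (totalDegree_X (R := K) (1 : Fin 2)).le
    · refine (totalDegree_sub _ _).trans (max_le ((totalDegree_sub _ _).trans (max_le ?_ ?_)) ?_)
      · rw [totalDegree_one]
        exact Nat.zero_le _
      · exact h3 a 0
      · exact h3 b 1
  refine (totalDegree_mul _ _).trans ?_
  have h5 : ((algebraMap K (MvPolynomial (Fin 2) K)) (coeff m Φ)).totalDegree = 0 :=
    totalDegree_C _
  rw [h5, zero_add, ← h1]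
  refine (totalDegree_finsetProd _ _).trans (Finset.sum_le_sum fun i _ => ?_)
  refine (totalDegree_pow _ _).trans ?_
  calc m i * _ ≤ m i * 1 := Nat.mul_le_mul_left _ (h2 i)
    _ = m i := mul_one _

/-- the value of `hsub` in the fraction field -/
theorem Hom_frac (hHs : S_HsEv) (a b e : ℕ) (p : MvPolynomial (Fin 2) K)
    (hp : p.totalDegree ≤ e) :
    algebraMap (MvPolynomial (Fin 3) K) (FractionRing (MvPolynomial (Fin 3) K))
      (hsub e p (X 0) (X 1) (Hom_Z K a b)) =
    (algebraMap (MvPolynomial (Fin 3) K) (FractionRing (MvPolynomial (Fin 3) K))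
      (Hom_Z K a b)) ^ e *
      aeval ![algebraMap (MvPolynomial (Fin 3) K) (FractionRing (MvPolynomial (Fin 3) K)) (X 0) /
        algebraMap (MvPolynomial (Fin 3) K) (FractionRing (MvPolynomial (Fin 3) K)) (Hom_Z K a b),
        algebraMap (MvPolynomial (Fin 3) K) (FractionRing (MvPolynomial (Fin 3) K)) (X 1) /
        algebraMap (MvPolynomial (Fin 3) K) (FractionRing (MvPolynomial (Fin 3) K))
          (Hom_Z K a b)] p := by
  have h1 := Hom_map (IsScalarTower.toAlgHom K (MvPolynomial (Fin 3) K)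
    (FractionRing (MvPolynomial (Fin 3) K))) e p (X 0) (X 1) (Hom_Z K a b)
  have h2 := (hHs K (FractionRing (MvPolynomial (Fin 3) K)) e p hp).1
    (algebraMap (MvPolynomial (Fin 3) K) (FractionRing (MvPolynomial (Fin 3) K)) (X 0))
    (algebraMap (MvPolynomial (Fin 3) K) (FractionRing (MvPolynomial (Fin 3) K)) (X 1))
    (algebraMap (MvPolynomial (Fin 3) K) (FractionRing (MvPolynomial (Fin 3) K)) (Hom_Z K a b))
    (fun h => Hom_Z_ne a b ((FaithfulSMul.algebraMap_injective _ _) (h.trans (map_zero _).symm)))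
  exact h1.trans h2

theorem Hom_hG (a b : ℕ) (G : MvPolynomial (Fin 2) K) :
    hG a b G = hsub G.totalDegree G (X 0) (X 1) (Hom_Z K a b) := rfl

theorem Hom_zero (a b : ℕ) : hG a b (0 : MvPolynomial (Fin 2) K) = 0 := by
  unfold hG hsub
  simp

theorem Hom_mul (hHs : S_HsEv) (a b : ℕ) (G B : MvPolynomial (Fin 2) K) (hGB : G * B ≠ 0) :
    hG a b (G * B) = hG a b G * hG a b B := by
  have hG0 : G ≠ 0 := left_ne_zero_of_mul hGB
  have hB0 : B ≠ 0 := right_ne_zero_of_mul hGB
  have h1 : (G * B).totalDegree = G.totalDegree + B.totalDegree :=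
    totalDegree_mul_of_isDomain hG0 hB0
  apply FaithfulSMul.algebraMap_injective (MvPolynomial (Fin 3) K)
    (FractionRing (MvPolynomial (Fin 3) K))
  rw [map_mul, Hom_hG, Hom_hG, Hom_hG, Hom_frac hHs a b _ _ le_rfl, Hom_frac hHs a b _ _ le_rfl,
    Hom_frac hHs a b _ _ le_rfl, h1, map_mul, pow_add]
  ring

theorem Hom_dvd (hHs : S_HsEv) (a b : ℕ) (G G' : MvPolynomial (Fin 2) K) (h : G ∣ G') :
    hG a b G ∣ hG a b G' := by
  obtain ⟨B, rfl⟩ := h
  by_cases h0 : G * B = 0
  · rw [h0, Hom_zero]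
    exact dvd_zero _
  · rw [Hom_mul hHs a b G B h0]
    exact dvd_mul_right _ _

theorem Hom_dh_hG (a b : ℕ) (G : MvPolynomial (Fin 2) K) : dh a b (hG a b G) = G := by
  rw [Hom_hG]
  have h1 := Hom_map (aeval ![X 0, X 1, 1 - (a : MvPolynomial (Fin 2) K) * X 0 -
    (b : MvPolynomial (Fin 2) K) * X 1] : MvPolynomial (Fin 3) K →ₐ[K] MvPolynomial (Fin 2) K)
    G.totalDegree G (X 0) (X 1) (Hom_Z K a b)
  have h2 : dh a b (hsub G.totalDegree G (X 0) (X 1) (Hom_Z K a b)) =
      hsub G.totalDegree G (dh a b (X 0)) (dh a b (X 1)) (dh a b (Hom_Z K a b)) := h1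
  rw [h2, Hom_dh_Z]
  have h3 : dh a b (X 0 : MvPolynomial (Fin 3) K) = X 0 := by
    unfold dh
    rw [aeval_X]
    rfl
  have h4 : dh a b (X 1 : MvPolynomial (Fin 3) K) = X 1 := by
    unfold dh
    rw [aeval_X]
    rfl
  rw [h3, h4, Hom_one]

theorem Hom_homog (a b : ℕ) (G : MvPolynomial (Fin 2) K) :
    (hG a b G).IsHomogeneous G.totalDegree := by
  rw [Hom_hG]
  unfold hsub
  refine IsHomogeneous.sum _ _ _ fun m hm => ?_
  have h1 : m 0 + m 1 ≤ G.totalDegree := by
    have := le_totalDegree hm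
    rwa [Finsupp.sum_fintype _ _ (fun _ => rfl), Fin.sum_univ_two] at this
  have h2 : ((X 0 : MvPolynomial (Fin 3) K) ^ m 0 * X 1 ^ m 1 *
      Hom_Z K a b ^ (G.totalDegree - (m 0 + m 1))).IsHomogeneous
      (1 * m 0 + 1 * m 1 + 1 * (G.totalDegree - (m 0 + m 1))) :=
    (((isHomogeneous_X K 0).pow _).mul ((isHomogeneous_X K 1).pow _)).mul
      ((Hom_Z_hom a b).pow _)
  have h3 : 1 * m 0 + 1 * m 1 + 1 * (G.totalDegree - (m 0 + m 1)) = G.totalDegree := by omega
  rw [h3] at h2
  exact h2.C_mul (G.coeff m)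

/-- a form is the homogenisation of its restriction -/
theorem Hom_form (hHs : S_HsEv) (a b r : ℕ) (Φ : MvPolynomial (Fin 3) K)
    (hΦ : Φ.IsHomogeneous r) : hsub r (dh a b Φ) (X 0) (X 1) (Hom_Z K a b) = Φ := by
  set L := FractionRing (MvPolynomial (Fin 3) K)
  set ι := algebraMap (MvPolynomial (Fin 3) K) L with hι
  have hinj : Function.Injective ι := FaithfulSMul.algebraMap_injective _ _
  have hZ : ι (Hom_Z K a b) ≠ 0 := fun h => Hom_Z_ne a b (hinj (h.trans (map_zero _).symm))
  apply hinj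
  rw [Hom_frac hHs a b r _ (Hom_deg a b r Φ hΦ)]
  have h1 : aeval ![ι (X 0) / ι (Hom_Z K a b), ι (X 1) / ι (Hom_Z K a b)] (dh a b Φ) =
      aeval (fun i : Fin 3 => ι (X i) / ι (Hom_Z K a b)) Φ := by
    unfold dh
    rw [← AlgHom.comp_apply]
    congr 1
    apply MvPolynomial.algHom_ext
    intro i
    rw [AlgHom.comp_apply, aeval_X, aeval_X]
    fin_cases i
    · simp
    · simp
    · simp only [Fin.reduceFinMk, Matrix.cons_val, map_sub, map_mul, map_one, map_natCast,
        aeval_X, Matrix.cons_val_zero, Matrix.cons_val_one]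
      have h2 : ι (Hom_Z K a b) = ι (X 2) + a * ι (X 0) + b * ι (X 1) := by
        unfold Hom_Z
        simp only [map_add, map_mul, map_natCast]
      exact Hom_aux _ _ _ _ hZ _ _ h2
  rw [h1, ← Hom_scale Φ r hΦ]
  have h3 : (fun i : Fin 3 => ι (Hom_Z K a b) * (ι (X i) / ι (Hom_Z K a b))) =
      fun i => ι (X i) := by
    funext i
    exact mul_div_cancel₀ _ hZ
  rw [h3]
  have h4 : aeval (fun i : Fin 3 => ι (X i)) = (IsScalarTower.toAlgHom K (MvPolynomial (Fin 3) K)
      L) := by
    apply MvPolynomial.algHom_ext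
    intro i
    rw [aeval_X]
    rfl
  rw [h4]
  rfl

end

theorem pr_Hom (hHs : S_HsEv) : S_Hom := by
  intro K _ _ F e a b hF
  refine ⟨fun G hG0 => ⟨fun h => hG0 ?_, Hom_homog a b G⟩, fun G P hP => ?_,
    fun G G' h => Hom_dvd hHs a b G G' h, fun G G' h => ?_⟩
  · rw [← Hom_dh_hG a b G, h]
    simp [dh]
  · have h1 := Hom_map (aeval P : MvPolynomial (Fin 3) K →ₐ[K] K) G.totalDegree G (X 0) (X 1)
      (Hom_Z K a b)
    have h2 : aeval P (Hom_Z K a b) = P 2 + a * P 0 + b * P 1 := by
      unfold Hom_Z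
      simp only [map_add, map_mul, map_natCast, aeval_X]
    rw [aeval_X, aeval_X, h2] at h1
    have h3 := (hHs K K G.totalDegree G le_rfl).1 (P 0) (P 1) _ hP
    rw [Hom_hG, h1, h3]
    constructor
    · intro h
      rcases mul_eq_zero.1 h with h | h
      · exact absurd h (pow_ne_zero _ hP)
      · exact h
    · intro h
      have h4 : aeval ![P 0 / (P 2 + a * P 0 + b * P 1), P 1 / (P 2 + a * P 0 + b * P 1)] G = 0 := h
      rw [h4, mul_zero]
  · have h1 : (aeval F (hG a b G')).IsHomogeneous (e * G'.totalDegree) :=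
      (Hom_homog a b G').aeval F hF
    have h2 : dh a b (aeval F (hG a b G')) = pull (pF a b F) G' := by
      rw [Hom_hG]
      have k1 := Hom_map (aeval F : MvPolynomial (Fin 3) K →ₐ[K] MvPolynomial (Fin 3) K)
        G'.totalDegree G' (X 0) (X 1) (Hom_Z K a b)
      have k2 := Hom_map (aeval ![X 0, X 1, 1 - (a : MvPolynomial (Fin 2) K) * X 0 -
        (b : MvPolynomial (Fin 2) K) * X 1] : MvPolynomial (Fin 3) K →ₐ[K]
          MvPolynomial (Fin 2) K)
        G'.totalDegree G' (F 0) (F 1) (F 2 + a * F 0 + b * F 1)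
      have k3 : aeval F (Hom_Z K a b) = F 2 + a * F 0 + b * F 1 := by
        unfold Hom_Z
        simp only [map_add, map_mul, map_natCast, aeval_X]
      rw [k1, aeval_X, aeval_X, k3]
      refine k2.trans ?_
      unfold pull pF
      congr 1
      simp only [map_add, map_mul, map_natCast]
      rfl
    have h3 := Hom_form hHs a b _ _ h1
    by_cases h0 : aeval F (hG a b G') = 0
    · rw [h0]
      exact dvd_zero _
    · have h4 : dh a b (aeval F (hG a b G')) ≠ 0 := by
        intro h
        rw [h] at h3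
        refine h0 (h3.symm.trans ?_)
        unfold hsub
        simp
      rw [h2] at h4 h3
      have h5 := Hom_dvd hHs a b G _ h
      refine h5.trans ?_
      have h6 : aeval F (hG a b G') = hG a b (pull (pF a b F) G') *
          Hom_Z K a b ^ (e * G'.totalDegree - (pull (pF a b F) G').totalDegree) := by
        have h7 := Hom_deg a b _ _ h1
        rw [h2] at h7
        apply FaithfulSMul.algebraMap_injective (MvPolynomial (Fin 3) K)
          (FractionRing (MvPolynomial (Fin 3) K))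
        rw [← h3, map_mul, map_pow, Hom_hG, Hom_frac hHs a b _ _ le_rfl, Hom_frac hHs a b _ _ h7]
        conv_lhs => rw [← Nat.add_sub_of_le h7, pow_add]
        ring
      rw [h6]
      exact dvd_mul_right _ _

end Pool.Agent.Work.MP_91e6de_nt.DM
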