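import Mathlib
import Pool.Agent.Work.MP_91e6de_nt.Bd.B03

set_option autoImplicit false

/-!
# C06: large degree gives a large partial reduced degree
-/

namespace Pool.Agent.Work.MP_91e6de_nt.DM

open MvPolynomial NumberField IsDedekindDomain Height

section rdf

variable {A S : Type} [CommRing A] [CommRing S] [Algebra A S]

lemma RDF_super (e : ℕ) (p : MvPolynomial (Fin 2) A) (u v w : S) (T : Finset (Fin 2 →₀ ℕ))
    (hT : p.support ⊆ T) :
    hsub e p u v w = ∑ m ∈ T, algebraMap A S (p.coeff m) *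
      (u ^ m 0 * v ^ m 1 * w ^ (e - (m 0 + m 1))) := by
  unfold hsub
  refine Finset.sum_subset hT fun m _ hm => ?_
  rw [notMem_support_iff.mp hm, map_zero, zero_mul]

lemma RDF_add (e : ℕ) (p q : MvPolynomial (Fin 2) A) (u v w : S) :
    hsub e (p + q) u v w = hsub e p u v w + hsub e q u v w := by
  classical
  rw [RDF_super e (p + q) u v w (p.support ∪ q.support) support_add,
    RDF_super e p u v w (p.support ∪ q.support) Finset.subset_union_left,
    RDF_super e q u v w (p.support ∪ q.support) Finset.subset_union_right,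
    ← Finset.sum_add_distrib]
  refine Finset.sum_congr rfl fun m _ => ?_
  rw [coeff_add, map_add, add_mul]

lemma RDF_zero (e : ℕ) (u v w : S) : hsub e (0 : MvPolynomial (Fin 2) A) u v w = 0 := by
  simp [hsub]

lemma RDF_monomial (e : ℕ) (m : Fin 2 →₀ ℕ) (c : A) (u v w : S) :
    hsub e (monomial m c) u v w = algebraMap A S c *
      (u ^ m 0 * v ^ m 1 * w ^ (e - (m 0 + m 1))) := by
  classical
  rw [RDF_super e (monomial m c) u v w {m} (support_monomial_subset), Finset.sum_singleton,
    coeff_monomial, if_pos rfl]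

lemma RDF_C_mul (e : ℕ) (c : A) (p : MvPolynomial (Fin 2) A) (u v w : S) :
    hsub e (C c * p) u v w = algebraMap A S c * hsub e p u v w := by
  induction p using MvPolynomial.induction_on' with
  | monomial m a =>
    rw [C_mul_monomial, RDF_monomial, RDF_monomial, map_mul]
    ring
  | add p q hp hq => rw [mul_add, RDF_add, RDF_add, hp, hq, mul_add]

lemma RDF_sum {ι : Type} (s : Finset ι) (e : ℕ) (f : ι → MvPolynomial (Fin 2) A) (u v w : S) :
    hsub e (∑ i ∈ s, f i) u v w = ∑ i ∈ s, hsub e (f i) u v w := by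
  classical
  induction s using Finset.induction_on with
  | empty => simp [RDF_zero]
  | insert a s ha ih => rw [Finset.sum_insert ha, Finset.sum_insert ha, RDF_add, ih]

lemma RDF_mul_X0 (e : ℕ) (p : MvPolynomial (Fin 2) A) (u v w : S) :
    hsub (e + 1) (p * X 0) u v w = hsub e p u v w * u := by
  induction p using MvPolynomial.induction_on' with
  | monomial m a =>
    rw [X, monomial_mul, RDF_monomial, RDF_monomial, mul_one]
    have h0 : (m + Finsupp.single (0 : Fin 2) 1 : Fin 2 →₀ ℕ) 0 = m 0 + 1 := by simp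
    have h1 : (m + Finsupp.single (0 : Fin 2) 1 : Fin 2 →₀ ℕ) 1 = m 1 := by simp
    rw [h0, h1, show e + 1 - (m 0 + 1 + m 1) = e - (m 0 + m 1) by omega]
    ring
  | add p q hp hq => rw [add_mul, RDF_add, RDF_add, hp, hq, add_mul]

lemma RDF_mul_X1 (e : ℕ) (p : MvPolynomial (Fin 2) A) (u v w : S) :
    hsub (e + 1) (p * X 1) u v w = hsub e p u v w * v := by
  induction p using MvPolynomial.induction_on' with
  | monomial m a =>
    rw [X, monomial_mul, RDF_monomial, RDF_monomial, mul_one]
    have h0 : (m + Finsupp.single (1 : Fin 2) 1 : Fin 2 →₀ ℕ) 0 = m 0 := by simp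
    have h1 : (m + Finsupp.single (1 : Fin 2) 1 : Fin 2 →₀ ℕ) 1 = m 1 + 1 := by simp
    rw [h0, h1, show e + 1 - (m 0 + (m 1 + 1)) = e - (m 0 + m 1) by omega]
    ring
  | add p q hp hq => rw [add_mul, RDF_add, RDF_add, hp, hq, add_mul]

lemma RDF_succ (e : ℕ) (p : MvPolynomial (Fin 2) A) (hp : p.totalDegree ≤ e) (u v w : S) :
    hsub (e + 1) p u v w = hsub e p u v w * w := by
  unfold hsub
  rw [Finset.sum_mul]
  refine Finset.sum_congr rfl fun m hm => ?_
  have h1 : m 0 + m 1 ≤ e := by
    have := le_totalDegree hm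
    rw [Finsupp.sum_fintype _ _ (fun _ => rfl), Fin.sum_univ_two] at this
    omega
  rw [show e + 1 - (m 0 + m 1) = e - (m 0 + m 1) + 1 by omega, pow_succ]
  ring

/-- powers of the linear form which is the third coordinate of the chart -/
lemma RDF_lin [Nontrivial A] (a b i j l : ℕ) (u v w : S) :
    ((X 0 ^ i * X 1 ^ j * (1 - (a : MvPolynomial (Fin 2) A) * X 0 -
      (b : MvPolynomial (Fin 2) A) * X 1) ^ l).totalDegree ≤ i + j + l) ∧
    hsub (i + j + l) (X 0 ^ i * X 1 ^ j * (1 - (a : MvPolynomial (Fin 2) A) * X 0 -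
      (b : MvPolynomial (Fin 2) A) * X 1) ^ l) u v w =
      u ^ i * v ^ j * (w - (a : S) * u - (b : S) * v) ^ l := by
  induction l with
  | zero =>
    have h : (X 0 ^ i * X 1 ^ j : MvPolynomial (Fin 2) A) =
        monomial (Finsupp.single 0 i + Finsupp.single 1 j) 1 := by
      rw [X_pow_eq_monomial, X_pow_eq_monomial, monomial_mul, one_mul]
    constructor
    · rw [pow_zero, mul_one, add_zero]
      refine (totalDegree_mul _ _).trans ?_
      rw [totalDegree_X_pow, totalDegree_X_pow]
    · rw [pow_zero, mul_one, pow_zero, mul_one, add_zero, h, RDF_monomial]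
      have h0 : (Finsupp.single (0 : Fin 2) i + Finsupp.single (1 : Fin 2) j : Fin 2 →₀ ℕ) 0 = i := by
        simp
      have h1 : (Finsupp.single (0 : Fin 2) i + Finsupp.single (1 : Fin 2) j : Fin 2 →₀ ℕ) 1 = j := by
        simp
      rw [h0, h1, Nat.sub_self, map_one]
      ring
  | succ l ih =>
    set q : MvPolynomial (Fin 2) A := X 0 ^ i * X 1 ^ j * (1 - (a : MvPolynomial (Fin 2) A) * X 0 -
      (b : MvPolynomial (Fin 2) A) * X 1) ^ l with hq
    have h : X 0 ^ i * X 1 ^ j * (1 - (a : MvPolynomial (Fin 2) A) * X 0 -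
      (b : MvPolynomial (Fin 2) A) * X 1) ^ (l + 1) = q + C (-(a : A)) * (q * X 0) +
        C (-(b : A)) * (q * X 1) := by
      rw [hq, C_neg, C_neg, map_natCast, map_natCast]
      ring
    constructor
    · rw [pow_succ, ← mul_assoc, ← hq]
      refine (totalDegree_mul _ _).trans ?_
      have hl : ((1 : MvPolynomial (Fin 2) A) - (a : MvPolynomial (Fin 2) A) * X 0 -
          (b : MvPolynomial (Fin 2) A) * X 1).totalDegree ≤ 1 := by
        refine (totalDegree_sub _ _).trans (max_le ((totalDegree_sub _ _).trans (max_le ?_ ?_)) ?_)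
        · simp
        · refine (totalDegree_mul _ _).trans ?_
          rw [← map_natCast (C : A →+* MvPolynomial (Fin 2) A), totalDegree_C, totalDegree_X]
        · refine (totalDegree_mul _ _).trans ?_
          rw [← map_natCast (C : A →+* MvPolynomial (Fin 2) A), totalDegree_C, totalDegree_X]
      exact (add_le_add ih.1 hl).trans (by omega)
    · rw [h, RDF_add, RDF_add, RDF_C_mul, RDF_C_mul, ← add_assoc (i + j), RDF_mul_X0, RDF_mul_X1,
        RDF_succ _ _ ih.1, ih.2, map_neg, map_neg, map_natCast, map_natCast]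
      ring

lemma RDF_dh_monomial (a b : ℕ) (m : Fin 3 →₀ ℕ) (c : A) :
    dh a b (monomial m c) = C c * (X 0 ^ m 0 * X 1 ^ m 1 *
      (1 - (a : MvPolynomial (Fin 2) A) * X 0 - (b : MvPolynomial (Fin 2) A) * X 1) ^ m 2) := by
  unfold dh
  rw [aeval_monomial, Finsupp.prod_fintype _ _ (fun _ => pow_zero _), Fin.prod_univ_three]
  rfl

/-- the dictionary between forms and polynomials -/
lemma RDF_key [Nontrivial A] (e a b : ℕ) (Φ : MvPolynomial (Fin 3) A) (hΦ : Φ.IsHomogeneous e)
    (u v w : S) :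
    hsub e (dh a b Φ) u v w = aeval ![u, v, w - (a : S) * u - (b : S) * v] Φ := by
  have h1 : dh a b Φ = ∑ m ∈ Φ.support, dh a b (monomial m (Φ.coeff m)) := by
    conv_lhs => rw [← support_sum_monomial_coeff Φ]
    unfold dh
    rw [map_sum]
  have h2 : aeval ![u, v, w - (a : S) * u - (b : S) * v] Φ =
      ∑ m ∈ Φ.support, aeval ![u, v, w - (a : S) * u - (b : S) * v] (monomial m (Φ.coeff m)) := by
    conv_lhs => rw [← support_sum_monomial_coeff Φ]
    rw [map_sum]
  rw [h1, h2, RDF_sum]
  refine Finset.sum_congr rfl fun m hm => ?_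
  have h3 : m 0 + m 1 + m 2 = e := by
    have := hΦ (mem_support_iff.mp hm)
    rw [← this, Finsupp.weight_apply, Finsupp.sum_fintype _ _ (fun _ => by simp),
      Fin.sum_univ_three]
    simp
  rw [RDF_dh_monomial, RDF_C_mul, aeval_monomial,
    Finsupp.prod_fintype _ _ (fun _ => pow_zero _), Fin.prod_univ_three]
  have h4 := (RDF_lin (A := A) a b (m 0) (m 1) (m 2) u v w).2
  rw [h3] at h4
  rw [h4]
  rfl

end rdf

section rdf2

variable {K : Type} [Field K]

/-- the third coordinate -/
private noncomputable def RDF_Z (a b : ℕ) : MvPolynomial (Fin 3) K :=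
  X 2 + (a : MvPolynomial (Fin 3) K) * X 0 + (b : MvPolynomial (Fin 3) K) * X 1

private lemma RDF_dh_inj (r a b : ℕ) (Φ : MvPolynomial (Fin 3) K) (hΦ : Φ.IsHomogeneous r)
    (h : dh a b Φ = 0) : Φ = 0 := by
  have h1 := RDF_key r a b Φ hΦ (X 0 : MvPolynomial (Fin 3) K) (X 1) (RDF_Z a b)
  rw [h, RDF_zero] at h1
  have h2 : (![X 0, X 1, RDF_Z a b - (a : MvPolynomial (Fin 3) K) * X 0 -
      (b : MvPolynomial (Fin 3) K) * X 1] : Fin 3 → MvPolynomial (Fin 3) K) = X := by
    funext i
    fin_cases i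
    · rfl
    · rfl
    · simp [RDF_Z]
      ring
  rw [h2, aeval_X_left, AlgHom.id_apply] at h1
  exact h1.symm

private lemma RDF_Z_hom (a b : ℕ) : (RDF_Z a b : MvPolynomial (Fin 3) K).IsHomogeneous 1 := by
  unfold RDF_Z
  refine ((isHomogeneous_X K _).add ?_).add ?_
  · rw [← map_natCast (C : K →+* MvPolynomial (Fin 3) K)]
    simpa using (isHomogeneous_C (Fin 3) (a : K)).mul (isHomogeneous_X K (0 : Fin 3))
  · rw [← map_natCast (C : K →+* MvPolynomial (Fin 3) K)]
    simpa using (isHomogeneous_C (Fin 3) (b : K)).mul (isHomogeneous_X K (1 : Fin 3))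

private lemma RDF_hom (r a b : ℕ) (H : MvPolynomial (Fin 2) K) (hH : H.totalDegree ≤ r) :
    (hsub r H (X 0 : MvPolynomial (Fin 3) K) (X 1) (RDF_Z a b)).IsHomogeneous r ∧
      dh a b (hsub r H (X 0 : MvPolynomial (Fin 3) K) (X 1) (RDF_Z a b)) = H := by
  constructor
  · unfold hsub
    refine IsHomogeneous.sum _ _ _ fun m hm => ?_
    have h1 : m 0 + m 1 ≤ r := by
      have := le_totalDegree hm
      rw [Finsupp.sum_fintype _ _ (fun _ => rfl), Fin.sum_univ_two] at this
      omega
    have h2 := (isHomogeneous_C (Fin 3) (H.coeff m)).mul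
      ((((isHomogeneous_X K (0 : Fin 3)).pow (m 0)).mul ((isHomogeneous_X K (1 : Fin 3)).pow (m 1))).mul
        ((RDF_Z_hom (K := K) a b).pow (r - (m 0 + m 1))))
    rw [show 0 + (1 * m 0 + 1 * m 1 + 1 * (r - (m 0 + m 1))) = r by omega] at h2
    exact h2
  · have hZ : dh a b (RDF_Z a b : MvPolynomial (Fin 3) K) = 1 := by
      unfold dh RDF_Z
      simp
      ring
    have h0 : dh a b (X 0 : MvPolynomial (Fin 3) K) = X 0 := by
      unfold dh
      simp
    have h1 : dh a b (X 1 : MvPolynomial (Fin 3) K) = X 1 := by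
      unfold dh
      simp
    have hC : ∀ c : K, dh a b (algebraMap K (MvPolynomial (Fin 3) K) c) = C c := by
      intro c
      unfold dh
      simp [algebraMap_eq]
    have hmul : ∀ x y : MvPolynomial (Fin 3) K, dh a b (x * y) = dh a b x * dh a b y := by
      intro x y
      unfold dh
      rw [map_mul]
    have hpow : ∀ (x : MvPolynomial (Fin 3) K) (n : ℕ), dh a b (x ^ n) = dh a b x ^ n := by
      intro x n
      unfold dh
      rw [map_pow]
    conv_rhs => rw [← support_sum_monomial_coeff H]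
    have hsum : dh a b (hsub r H (X 0 : MvPolynomial (Fin 3) K) (X 1) (RDF_Z a b)) =
        ∑ m ∈ H.support, dh a b (algebraMap K (MvPolynomial (Fin 3) K) (H.coeff m) *
          (X 0 ^ m 0 * X 1 ^ m 1 * RDF_Z a b ^ (r - (m 0 + m 1)))) := by
      unfold hsub
      unfold dh
      rw [map_sum]
    rw [hsum]
    refine Finset.sum_congr rfl fun m _ => ?_
    rw [hmul, hC, hmul, hmul, hpow, hpow, hpow, hZ, h0, h1, one_pow, mul_one, monomial_eq,
      Finsupp.prod_fintype _ _ (fun _ => pow_zero _), Fin.prod_univ_two]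

private lemma RDF_itF_hom (F : Fin 3 → MvPolynomial (Fin 3) K) (e : ℕ)
    (hF : ∀ i, (F i).IsHomogeneous e) : ∀ k i, (itF F k i).IsHomogeneous (e ^ k) := by
  intro k
  induction k with
  | zero =>
    intro i
    rw [pow_zero]
    exact isHomogeneous_X K i
  | succ k ih =>
    intro i
    rw [pow_succ]
    exact (hF i).aeval _ ih

private lemma RDF_itr (F : Fin 3 → MvPolynomial (Fin 3) K) (e a b : ℕ)
    (hF : ∀ i, (F i).IsHomogeneous e) : ∀ k,
    itr e (pF a b F) k 0 = dh a b (itF F k 0) ∧ itr e (pF a b F) k 1 = dh a b (itF F k 1) ∧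
      itr e (pF a b F) k 2 = dh a b (itF F k 2) +
        (a : MvPolynomial (Fin 2) K) * dh a b (itF F k 0) +
          (b : MvPolynomial (Fin 2) K) * dh a b (itF F k 1) := by
  intro k
  induction k with
  | zero =>
    refine ⟨?_, ?_, ?_⟩
    · simp [itr, itF, dh]
    · simp [itr, itF, dh]
    · simp [itr, itF, dh]
      ring
  | succ k ih =>
    obtain ⟨h0, h1, h2⟩ := ih
    have hv : (![itr e (pF a b F) k 0, itr e (pF a b F) k 1, itr e (pF a b F) k 2 -
        (a : MvPolynomial (Fin 2) K) * itr e (pF a b F) k 0 -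
        (b : MvPolynomial (Fin 2) K) * itr e (pF a b F) k 1] : Fin 3 → MvPolynomial (Fin 2) K) =
        fun j => dh a b (itF F k j) := by
      funext j
      fin_cases j
      · exact h0
      · exact h1
      · simp only [Fin.reduceFinMk, Matrix.cons_val]
        rw [h2, h0, h1]
        ring
    have hk : ∀ Φ : MvPolynomial (Fin 3) K, Φ.IsHomogeneous e →
        hsub e (dh a b Φ) (itr e (pF a b F) k 0) (itr e (pF a b F) k 1) (itr e (pF a b F) k 2) =
          dh a b (aeval (itF F k) Φ) := by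
      intro Φ hΦ
      rw [RDF_key e a b Φ hΦ, hv]
      unfold dh
      rw [← AlgHom.comp_apply, comp_aeval]
    have hadd : ∀ i, hsub e (pF a b F i) (itr e (pF a b F) k 0) (itr e (pF a b F) k 1)
        (itr e (pF a b F) k 2) = itr e (pF a b F) (k + 1) i := fun i => rfl
    refine ⟨?_, ?_, ?_⟩
    · rw [← hadd]
      exact hk (F 0) (hF 0)
    · rw [← hadd]
      exact hk (F 1) (hF 1)
    · rw [← hadd]
      have h3 : pF a b F 2 = dh a b (F 2) + C (a : K) * dh a b (F 0) + C (b : K) * dh a b (F 1) := by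
        rw [map_natCast, map_natCast]
        rfl
      rw [h3, RDF_add, RDF_add, RDF_C_mul, RDF_C_mul, hk _ (hF 0), hk _ (hF 1), hk _ (hF 2),
        map_natCast, map_natCast]
      rfl

/-- reduced pairs -/
private lemma RDF_red (D : ℕ) (hD : 1 ≤ D) (U W : MvPolynomial (Fin 2) K) (hW : W ≠ 0)
    (h : ∀ j : Fin 2, ¬ RD j D U W) : ∃ A B : MvPolynomial (Fin 2) K, B ≠ 0 ∧ A * W = B * U ∧
      A.totalDegree ≤ 2 * D ∧ B.totalDegree ≤ 2 * D := by
  obtain ⟨A, B, g, hrel, hA, hB⟩ := UniqueFactorizationMonoid.exists_reduced_factors' U W hW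
  have hB0 : B ≠ 0 := by
    rintro rfl
    exact hW (by rw [← hB, mul_zero])
  have hg0 : g ≠ 0 := by
    rintro rfl
    exact hW (by rw [← hB, zero_mul])
  have hAB : A * W = B * U := by
    rw [← hA, ← hB]
    ring
  have key : ∀ j : Fin 2, A.degreeOf j < D ∧ B.degreeOf j < D := by
    intro j
    have h1 := h j
    unfold RD at h1
    push Not at h1
    obtain ⟨A', B', hA', hB', h2, h3⟩ := h1
    have hB'0 : B' ≠ 0 := by
      rintro rfl
      rw [zero_mul] at h2
      rcases mul_eq_zero.mp h2 with h4 | h4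
      · exact h3 h4 rfl
      · exact hW h4
    have h4 : A' * B = B' * A := by
      have : g * (A' * B) = g * (B' * A) := by
        calc g * (A' * B) = A' * (g * B) := by ring
          _ = B' * (g * A) := by rw [hB, h2, hA]
          _ = g * (B' * A) := by ring
      exact mul_left_cancel₀ hg0 this
    have h5 : B ∣ B' := by
      have h6 : B ∣ B' * A := ⟨A', by rw [← h4]; ring⟩
      exact (hrel.symm).dvd_of_dvd_mul_right h6
    obtain ⟨c, rfl⟩ := h5
    have hc : c ≠ 0 := by
      rintro rfl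
      exact hB'0 (mul_zero _)
    have h6 : A' = c * A := by
      have : A' * B = (c * A) * B := by
        rw [h4]
        ring
      exact mul_right_cancel₀ hB0 this
    constructor
    · by_cases hA0 : A = 0
      · rw [hA0, degreeOf_zero]
        omega
      · rw [h6, degreeOf_mul_eq hc hA0] at hA'
        omega
    · rw [degreeOf_mul_eq hB0 hc] at hB'
      omega
  have deg : ∀ p : MvPolynomial (Fin 2) K, (∀ j : Fin 2, p.degreeOf j < D) →
      p.totalDegree ≤ 2 * D := by
    intro p hp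
    unfold totalDegree
    refine Finset.sup_le fun m hm => ?_
    rw [Finsupp.sum_fintype _ _ (fun _ => rfl), Fin.sum_univ_two]
    have h0 := monomial_le_degreeOf 0 hm
    have h1 := monomial_le_degreeOf 1 hm
    have := hp 0
    have := hp 1
    omega
  exact ⟨A, B, hB0, hAB, deg A fun j => (key j).1, deg B fun j => (key j).2⟩

end rdf2

/-- C06. -/
theorem pr_RDF : S_RDF := by
  intro K _ _ F e a b k D hD hF hdg hW
  by_contra hcon
  push Not at hcon
  obtain ⟨h0, h1, h2⟩ := RDF_itr F e a b hF k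
  have hf := RDF_itF_hom F e hF k
  set U0 := itr e (pF a b F) k 0 with hU0
  set U1 := itr e (pF a b F) k 1 with hU1
  set W := itr e (pF a b F) k 2 with hWdef
  obtain ⟨A0, B0, hB0, hAB0, dA0, dB0⟩ := RDF_red D hD U0 W hW (fun j => hcon 0 j)
  obtain ⟨A1, B1, hB1, hAB1, dA1, dB1⟩ := RDF_red D hD U1 W hW (fun j => hcon 1 j)
  have e0 : (A0 * B1) * W = (B0 * B1) * U0 := by
    linear_combination B1 * hAB0
  have e1 : (A1 * B0) * W = (B0 * B1) * U1 := by
    linear_combination B0 * hAB1
  have e2 : (A0 * B1) * U1 = (A1 * B0) * U0 := by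
    refine mul_right_cancel₀ hW ?_
    linear_combination U1 * e0 - U0 * e1
  have d0 : (A0 * B1).totalDegree ≤ 4 * D := (totalDegree_mul _ _).trans (by omega)
  have d1 : (A1 * B0).totalDegree ≤ 4 * D := (totalDegree_mul _ _).trans (by omega)
  have d2 : (B0 * B1).totalDegree ≤ 4 * D := (totalDegree_mul _ _).trans (by omega)
  obtain ⟨g0h, g0d⟩ := RDF_hom (4 * D) a b _ d0
  obtain ⟨g1h, g1d⟩ := RDF_hom (4 * D) a b _ d1
  obtain ⟨g2h, g2d⟩ := RDF_hom (4 * D) a b _ d2
  set g0 := hsub (4 * D) (A0 * B1) (X 0 : MvPolynomial (Fin 3) K) (X 1) (RDF_Z a b) with hg0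
  set g1 := hsub (4 * D) (A1 * B0) (X 0 : MvPolynomial (Fin 3) K) (X 1) (RDF_Z a b) with hg1
  set g2 := hsub (4 * D) (B0 * B1) (X 0 : MvPolynomial (Fin 3) K) (X 1) (RDF_Z a b) with hg2
  have hmul : ∀ x y : MvPolynomial (Fin 3) K, dh a b (x * y) = dh a b x * dh a b y := by
    intro x y
    unfold dh
    rw [map_mul]
  have hsubt : ∀ x y : MvPolynomial (Fin 3) K, dh a b (x - y) = dh a b x - dh a b y := by
    intro x y
    unfold dh
    rw [map_sub]
  have hnat : ∀ n : ℕ, dh a b (n : MvPolynomial (Fin 3) K) = (n : MvPolynomial (Fin 2) K) := by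
    intro n
    unfold dh
    rw [map_natCast]
  set G : Fin 3 → MvPolynomial (Fin 3) K := ![g0, g1, g2 - (a : MvPolynomial (Fin 3) K) * g0 -
    (b : MvPolynomial (Fin 3) K) * g1] with hG
  have hcast : ∀ (n : ℕ) (g : MvPolynomial (Fin 3) K), g.IsHomogeneous (4 * D) →
      ((n : MvPolynomial (Fin 3) K) * g).IsHomogeneous (4 * D) := by
    intro n g hg
    rw [← map_natCast (C : K →+* MvPolynomial (Fin 3) K)]
    simpa using (isHomogeneous_C (Fin 3) (n : K)).mul hg
  have hGh : ∀ i, (G i).IsHomogeneous (4 * D) := by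
    intro i
    fin_cases i
    · exact g0h
    · exact g1h
    · exact (g2h.sub (hcast a g0 g0h)).sub (hcast b g1 g1h)
  have hGd0 : dh a b (G 0) = A0 * B1 := g0d
  have hGd1 : dh a b (G 1) = A1 * B0 := g1d
  have hGd2 : dh a b (G 2) = B0 * B1 - (a : MvPolynomial (Fin 2) K) * (A0 * B1) -
      (b : MvPolynomial (Fin 2) K) * (A1 * B0) := by
    show dh a b (g2 - (a : MvPolynomial (Fin 3) K) * g0 - (b : MvPolynomial (Fin 3) K) * g1) = _
    rw [hsubt, hsubt, hmul, hmul, hnat, hnat, g0d, g1d, g2d]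
  have hG0 : G ≠ 0 := by
    intro h
    have z0 : A0 * B1 = 0 := by
      rw [← hGd0, h]
      simp [dh]
    have z1 : A1 * B0 = 0 := by
      rw [← hGd1, h]
      simp [dh]
    have z2 : B0 * B1 - (a : MvPolynomial (Fin 2) K) * (A0 * B1) -
      (b : MvPolynomial (Fin 2) K) * (A1 * B0) = 0 := by
      rw [← hGd2, h]
      simp [dh]
    rw [z0, z1, mul_zero, mul_zero, sub_zero, sub_zero] at z2
    exact (mul_ne_zero hB0 hB1) z2
  have hf2 : dh a b (itF F k 2) = W - (a : MvPolynomial (Fin 2) K) * U0 -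
      (b : MvPolynomial (Fin 2) K) * U1 := by
    rw [h2, h0, h1]
    ring
  have hprop : ∀ i j, G i * itF F k j = G j * itF F k i := by
    intro i j
    have hh : (G i * itF F k j - G j * itF F k i).IsHomogeneous (4 * D + e ^ k) :=
      ((hGh i).mul (hf j)).sub ((hGh j).mul (hf i))
    refine sub_eq_zero.mp (RDF_dh_inj _ a b _ hh ?_)
    rw [hsubt, hmul, hmul]
    fin_cases i <;> fin_cases j <;> simp only [Fin.reduceFinMk, Fin.zero_eta, Fin.mk_one, hGd0, hGd1, hGd2, hf2, ← h0, ← h1]
    · ring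
    · linear_combination e2
    · linear_combination e0 - (b : MvPolynomial (Fin 2) K) * e2
    · linear_combination (-1 : MvPolynomial (Fin 2) K) * e2
    · ring
    · linear_combination e1 + (a : MvPolynomial (Fin 2) K) * e2
    · linear_combination (-1 : MvPolynomial (Fin 2) K) * e0 + (b : MvPolynomial (Fin 2) K) * e2
    · linear_combination (-1 : MvPolynomial (Fin 2) K) * e1 - (a : MvPolynomial (Fin 2) K) * e2
    · ring
  have : dgF F k ≤ 4 * D := Nat.sInf_le ⟨G, hG0, hGh, hprop⟩
  omega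

end Pool.Agent.Work.MP_91e6de_nt.DM
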