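import Mathlib
import Pool.Agent.Work.MP_91e6de_nt.DM.StmtsB
import Pool.Agent.Work.MP_91e6de_nt.Bd.B03

set_option autoImplicit false

/-!
# The determinant method along orbits (MP_91e6de): item T2A
-/

namespace Pool.Agent.Work.MP_91e6de_nt.DM

open MvPolynomial NumberField IsDedekindDomain Height Filter Topology

/-- values of forms -/
theorem T2A_scale {A L : Type} [CommRing A] [CommRing L] [Algebra A L] {σ : Type} [Fintype σ]
    (φ : MvPolynomial σ A) (r : ℕ) (hφ : φ.IsHomogeneous r) (c : L) (x : σ → L) :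
    aeval (fun i => c * x i) φ = c ^ r * aeval x φ := by
  rw [aeval_def, aeval_def, eval₂_eq', eval₂_eq', Finset.mul_sum]
  refine Finset.sum_congr rfl fun m hm => ?_
  have h1 : ∑ i, m i = r := by
    have := hφ (mem_support_iff.1 hm)
    rw [Finsupp.weight_apply, Finsupp.sum_fintype _ _ (fun i => by simp)] at this
    simpa using this
  rw [← h1, ← Finset.prod_pow_eq_pow_sum, mul_left_comm, ← Finset.prod_mul_distrib]
  simp only [mul_pow]

/-- linear forms vanishing at a vector -/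
theorem T2A_lin {K : Type} [Field K] (v : Fin 3 → K) : ∃ l : MvPolynomial (Fin 3) K, l ≠ 0 ∧
    l.IsHomogeneous 1 ∧ aeval v l = 0 := by
  by_cases h : v 0 = 0
  · exact ⟨X 0, X_ne_zero 0, isHomogeneous_X K 0, by rw [aeval_X, h]⟩
  · refine ⟨C (v 0) * X 1 - C (v 1) * X 0, fun h0 => h ?_,
      ((isHomogeneous_X K 1).C_mul _).sub ((isHomogeneous_X K 0).C_mul _), ?_⟩
    · have h1 := congrArg (aeval ![(0 : K), 1, 0]) h0
      simpa using h1
    · simp only [map_sub, map_mul, aeval_X, algHom_C, Algebra.algebraMap_self, RingHom.id_apply]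
      ring

/-- finitely many points -/
theorem T2A_fin {K : Type} [Field K] (P : ℕ → Fin 3 → K) (N : ℕ) :
    ∃ l : MvPolynomial (Fin 3) K, l ≠ 0 ∧ l.IsHomogeneous N ∧ ∀ n < N, aeval (P n) l = 0 := by
  choose l h1 h2 h3 using fun v : Fin 3 → K => T2A_lin v
  refine ⟨∏ n ∈ Finset.range N, l (P n), Finset.prod_ne_zero_iff.2 fun n _ => h1 _, ?_,
    fun n hn => ?_⟩
  · have := IsHomogeneous.prod (Finset.range N) (fun n => l (P n)) (fun _ => 1)
      (fun n _ => h2 (P n))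
    simpa using this
  · rw [map_prod]
    exact Finset.prod_eq_zero (Finset.mem_range.2 hn) (h3 (P n))

/-- equal points in the chart are proportional -/
theorem T2A_prop {K : Type} [Field K] (a b : ℕ) (v v' : Fin 3 → K)
    (h : v 2 + a * v 0 + b * v 1 ≠ 0) (h' : v' 2 + a * v' 0 + b * v' 1 ≠ 0)
    (he : ch a b v = ch a b v') : ∃ c : K, ∀ i, v' i = c * v i := by
  have h0 : v 0 / (v 2 + a * v 0 + b * v 1) = v' 0 / (v' 2 + a * v' 0 + b * v' 1) :=
    congrFun he 0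
  have h1 : v 1 / (v 2 + a * v 0 + b * v 1) = v' 1 / (v' 2 + a * v' 0 + b * v' 1) :=
    congrFun he 1
  rw [div_eq_div_iff h h'] at h0 h1
  refine ⟨(v' 2 + a * v' 0 + b * v' 1) / (v 2 + a * v 0 + b * v 1), fun i => ?_⟩
  rw [div_mul_eq_mul_div, eq_div_iff h]
  fin_cases i
  · simp only [Fin.zero_eta, Fin.isValue]
    linear_combination -h0
  · simp only [Fin.mk_one, Fin.isValue]
    linear_combination -h1
  · simp only [Fin.reduceFinMk]
    linear_combination (a : K) * h0 + (b : K) * h1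

/-- an orbit with two proportional points -/
theorem T2A_per {A K : Type} [CommRing A] [Field K] [Algebra A K]
    (F : Fin 3 → MvPolynomial (Fin 3) A) (e : ℕ) (hF : ∀ i, (F i).IsHomogeneous e)
    (P : ℕ → Fin 3 → K) (hP : ∀ n i, P (n + 1) i = aeval (P n) (F i)) (n n' : ℕ) (hn : n < n')
    (c : K) (hc : ∀ i, P n' i = c * P n i) :
    ∃ (r : ℕ) (G : MvPolynomial (Fin 3) K), G ≠ 0 ∧ G.IsHomogeneous r ∧
      ∀ n, aeval (P n) G = 0 := by
  have h1 : ∀ j, ∃ c : K, ∀ i, P (n' + j) i = c * P (n + j) i := by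
    intro j
    induction j with
    | zero => exact ⟨c, hc⟩
    | succ j ih =>
      obtain ⟨c', hc'⟩ := ih
      refine ⟨c' ^ e, fun i => ?_⟩
      have h2 : P (n' + j) = fun i => c' * P (n + j) i := funext hc'
      have h3 : P (n' + (j + 1)) i = aeval (P (n' + j)) (F i) := hP (n' + j) i
      have h4 : P (n + (j + 1)) i = aeval (P (n + j)) (F i) := hP (n + j) i
      rw [h3, h4, h2, T2A_scale (F i) e (hF i)]
  have h2 : ∀ m, ∃ m' < n', ∃ c : K, ∀ i, P m i = c * P m' i := by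
    intro m
    induction m using Nat.strong_induction_on with
    | _ m ih =>
      by_cases hm : m < n'
      · exact ⟨m, hm, 1, fun i => (one_mul _).symm⟩
      · obtain ⟨j, rfl⟩ := Nat.exists_eq_add_of_le (not_lt.1 hm)
        obtain ⟨c1, hc1⟩ := h1 j
        obtain ⟨m', hm', c2, hc2⟩ := ih (n + j) (by omega)
        exact ⟨m', hm', c1 * c2, fun i => by rw [hc1, hc2, mul_assoc]⟩
  obtain ⟨l, hl0, hl1, hl2⟩ := T2A_fin P n'
  refine ⟨n', l, hl0, hl1, fun m => ?_⟩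
  obtain ⟨m', hm', c', hc'⟩ := h2 m
  have h3 : P m = fun i => c' * P m' i := funext hc'
  rw [h3, T2A_scale l n' hl1, hl2 m' hm', mul_zero]

/-- the end of the proof: the cyclic chain -/
theorem T2A_end {K : Type} [Field K] (F : Fin 3 → MvPolynomial (Fin 3) K) (P : ℕ → Fin 3 → K)
    (hP : ∀ n i, P (n + 1) i = aeval (P n) (F i)) (n0 g : ℕ) (hg : 1 ≤ g)
    (H : ℕ → MvPolynomial (Fin 3) K) (dg : ℕ → ℕ) (hH : ∀ i < g, H i ≠ 0)
    (hH' : ∀ i < g, (H i).IsHomogeneous (dg i)) (h1 : ∀ i < g, H i ∣ aeval F (H (i + 1)))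
    (h2 : H g ∣ H 0) (h3 : aeval (P n0) (H 0) = 0) :
    ∃ (r : ℕ) (G : MvPolynomial (Fin 3) K), G ≠ 0 ∧ G.IsHomogeneous r ∧
      ∀ n, aeval (P n) G = 0 := by
  have key : ∀ j, ∃ i < g, aeval (P (n0 + j)) (H i) = 0 := by
    intro j
    induction j with
    | zero => exact ⟨0, hg, h3⟩
    | succ j ih =>
      obtain ⟨i, hi, hi'⟩ := ih
      obtain ⟨B, hB⟩ := h1 i hi
      have k1 : aeval (P (n0 + j)) (aeval F (H (i + 1))) = 0 := by
        rw [hB, map_mul, hi', zero_mul]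
      have k2 : aeval (P (n0 + j)) (aeval F (H (i + 1))) =
          aeval (P (n0 + (j + 1))) (H (i + 1)) := by
        have k3 : P (n0 + (j + 1)) = fun i => aeval (P (n0 + j)) (F i) :=
          funext (hP (n0 + j))
        rw [k3, ← AlgHom.comp_apply]
        congr 1
        apply MvPolynomial.algHom_ext
        intro l
        rw [AlgHom.comp_apply, aeval_X, aeval_X]
      rw [k2] at k1
      rcases Nat.lt_or_ge (i + 1) g with h | h
      · exact ⟨i + 1, h, k1⟩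
      · have h' : i + 1 = g := by omega
        obtain ⟨B', hB'⟩ := h2
        refine ⟨0, hg, ?_⟩
        rw [hB', ← h', map_mul, k1, zero_mul]
  obtain ⟨l, hl0, hl1, hl2⟩ := T2A_fin P n0
  refine ⟨∑ i ∈ Finset.range g, dg i + n0, (∏ i ∈ Finset.range g, H i) * l,
    mul_ne_zero (Finset.prod_ne_zero_iff.2 fun i hi => hH i (Finset.mem_range.1 hi)) hl0,
    (IsHomogeneous.prod _ _ _ fun i hi => hH' i (Finset.mem_range.1 hi)).mul hl1, fun n => ?_⟩
  rw [map_mul]
  rcases Nat.lt_or_ge n n0 with h | h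
  · rw [hl2 n h, mul_zero]
  · obtain ⟨j, rfl⟩ := Nat.exists_eq_add_of_le h
    obtain ⟨i, hi, hi'⟩ := key j
    rw [map_prod, Finset.prod_eq_zero (Finset.mem_range.2 hi) hi', zero_mul]

/-- the height bound -/
theorem T2A_bound (η C CF : ℝ) (hη : 0 < η) (hC : 0 ≤ C) (hCF : 0 ≤ CF) (N n s : ℕ) (hN : 1 ≤ N)
    (hn : n ≤ 3 * N) (hs : s + 1 ≤ 9 * N) (x : ℝ) (hx : x ≤ C * ((n : ℝ) + 1) ^ η) :
    CF * (1 + x + Real.log ((s : ℝ) + 1)) ≤
      CF * (1 + C * 4 ^ η + 9 ^ η / η) * (N : ℝ) ^ η := by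
  have hN' : (1 : ℝ) ≤ N := by exact_mod_cast hN
  have h1 : (1 : ℝ) ≤ (N : ℝ) ^ η := Real.one_le_rpow hN' hη.le
  have h2 : x ≤ C * 4 ^ η * (N : ℝ) ^ η := by
    refine hx.trans ?_
    rw [mul_assoc, ← Real.mul_rpow (by norm_num) (by positivity)]
    refine mul_le_mul_of_nonneg_left (Real.rpow_le_rpow (by positivity) ?_ hη.le) hC
    have : (n : ℝ) ≤ 3 * N := by exact_mod_cast hn
    linarith
  have h3 : Real.log ((s : ℝ) + 1) ≤ 9 ^ η / η * (N : ℝ) ^ η := by
    have h4 : (0 : ℝ) ≤ (s : ℝ) + 1 := by positivity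
    refine (Real.log_le_rpow_div h4 hη).trans ?_
    rw [div_mul_eq_mul_div, ← Real.mul_rpow (by norm_num) (by positivity)]
    refine div_le_div_of_nonneg_right (Real.rpow_le_rpow h4 ?_ hη.le) hη.le
    exact_mod_cast hs
  have h5 : 1 + x + Real.log ((s : ℝ) + 1) ≤ (1 + C * 4 ^ η + 9 ^ η / η) * (N : ℝ) ^ η := by
    nlinarith
  rw [mul_assoc]
  exact mul_le_mul_of_nonneg_left h5 hCF

theorem T2A_map {K : Type} [Field K] [NumberField K] (a b : ℕ)
    (F : Fin 3 → MvPolynomial (Fin 3) (𝓞 K)) :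
    (fun i => map (algebraMap (𝓞 K) K) (pF a b F i)) =
      pF a b (fun i => map (algebraMap (𝓞 K) K) (F i)) := by
  have h1 : ∀ G : MvPolynomial (Fin 3) (𝓞 K), map (algebraMap (𝓞 K) K) (dh a b G) =
      dh a b (map (algebraMap (𝓞 K) K) G) := by
    intro G
    have h2 : (MvPolynomial.map (algebraMap (𝓞 K) K)).comp (aeval ![X 0, X 1,
        1 - (a : MvPolynomial (Fin 2) (𝓞 K)) * X 0 - (b : MvPolynomial (Fin 2) (𝓞 K)) * X 1] :
          MvPolynomial (Fin 3) (𝓞 K) →ₐ[𝓞 K] MvPolynomial (Fin 2) (𝓞 K)).toRingHom =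
        (aeval ![X 0, X 1,
          1 - (a : MvPolynomial (Fin 2) K) * X 0 - (b : MvPolynomial (Fin 2) K) * X 1] :
          MvPolynomial (Fin 3) K →ₐ[K] MvPolynomial (Fin 2) K).toRingHom.comp
          (MvPolynomial.map (algebraMap (𝓞 K) K)) := by
      apply MvPolynomial.ringHom_ext
      · intro r
        simp
      · intro i
        fin_cases i <;> simp
    exact DFunLike.congr_fun h2 G
  funext i
  unfold pF
  fin_cases i
  · simp [h1]
  · simp [h1]
  · simp [h1]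

theorem pr_T2A (hCov : S_Cov) (hChn : S_Chn) (hPar : S_Par) (hIte : S_Ite) (hMapI : S_MapI)
    (hWnd : S_Wnd) (hCoO : S_CoO) (hCoD : S_CoD) (hCoH : S_CoH) (hRDF : S_RDF)
    (hHom : S_Hom) : S_T2A := by
  intro K _ _ F e k0 lam he hF hlam hdeg
  have hkap : 1 ≤ Module.finrank ℚ K := Module.finrank_pos
  obtain ⟨η, hη, hpar⟩ := hPar (Module.finrank ℚ K) e k0 lam hkap he hlam
  refine ⟨η, hη, fun P C hP0 hP hht => ?_⟩
  by_cases hprop : ∃ n n' : ℕ, n < n' ∧ ∃ c : K, ∀ i, P n' i = c * P n i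
  · obtain ⟨n, n', hn, c, hc⟩ := hprop
    exact T2A_per F e hF P hP n n' hn c hc
  obtain ⟨CF, hCF, hcoh⟩ := hCoH K F
  set C0 := max C 0 with hC0
  have hC0' : 0 ≤ C0 := le_max_right _ _
  obtain ⟨N0, hN0⟩ := hpar (CF * (1 + C0 * 4 ^ η + 9 ^ η / η))
  set N := max N0 1 with hNdef
  have hN1 : 1 ≤ N := le_max_right _ _
  obtain ⟨m, k, hm12, hm1, hk0, hkN, hineq, hDk, hLL⟩ := hN0 N (le_max_left _ _)
  obtain ⟨a, b, ha, hb, hw⟩ := hWnd K (3 * N) P hP0
  set h := CF * (1 + C0 * 4 ^ η + 9 ^ η / η) * (N : ℝ) ^ η with hh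
  have horb : IsOrb (pF a b F) (3 * N) (fun n => ch a b (P n)) :=
    hCoO (𝓞 K) K e (3 * N) a b F P hF hP hw
  have hdg := hCoD (𝓞 K) e a b F hF
  have hinj : Set.InjOn (fun n => ch a b (P n)) (Set.Iic (2 * N)) := by
    intro n hn n' hn' hnn
    have hn2 : n ≤ 2 * N := hn
    have hn2' : n' ≤ 2 * N := hn'
    by_contra hne
    rcases Nat.lt_or_gt_of_ne hne with hlt | hlt
    · exact hprop ⟨n, n', hlt, T2A_prop a b (P n) (P n') (hw n (by omega)) (hw n' (by omega)) hnn⟩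
    · exact hprop ⟨n', n, hlt, T2A_prop a b (P n') (P n) (hw n' (by omega)) (hw n (by omega))
        hnn.symm⟩
  have hbd : ∀ n ≤ 3 * N, CF * (1 + logHeight (P n) + Real.log (a + b + 1)) ≤ h := by
    intro n hn
    have h1 := T2A_bound η C0 CF hη hC0' hCF N n (a + b) hN1 hn (by omega) (logHeight (P n))
      ((hht n).trans (mul_le_mul_of_nonneg_right (le_max_left _ _) (by positivity)))
    push_cast at h1
    exact h1
  have hht1 : ∀ n ≤ 3 * N, ∀ i, logHeight₁ (ch a b (P n) i) ≤ h := fun n hn i =>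
    ((hcoh a b (P n) (hw n hn)).1 i).trans (hbd n hn)
  have hht2 : ∀ n < 3 * N, logHeight₁ (aeval (ch a b (P n)) (pF a b F 2)) ≤ h := fun n hn =>
    ((hcoh a b (P n) (hw n hn.le)).2).trans (hbd n hn.le)
  -- the map over `K`
  set Fm : Fin 3 → MvPolynomial (Fin 3) K := fun i => MvPolynomial.map (algebraMap (𝓞 K) K) (F i)
    with hFm
  have hFmh : ∀ i, (Fm i).IsHomogeneous e := fun i => (hF i).map _
  have hpm : (fun i => MvPolynomial.map (algebraMap (𝓞 K) K) (pF a b F i)) = pF a b Fm :=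
    T2A_map a b F
  have hinjφ : Function.Injective (algebraMap (𝓞 K) K) := FaithfulSMul.algebraMap_injective _ _
  have hitr : ∀ i, MvPolynomial.map (algebraMap (𝓞 K) K) (itr e (pF a b F) k i) =
      itr e (pF a b Fm) k i := by
    intro i
    rw [hMapI (𝓞 K) K (algebraMap (𝓞 K) K) hinjφ e (pF a b F) k i, hpm]
  have hmapv : ∀ (x : Fin 2 → K) (q : MvPolynomial (Fin 2) (𝓞 K)),
      aeval x (MvPolynomial.map (algebraMap (𝓞 K) K) q) = aeval x q := fun x q =>
    aeval_map_algebraMap K x q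
  have hmapv3 : ∀ (x : Fin 3 → K) (q : MvPolynomial (Fin 3) (𝓞 K)),
      aeval x (MvPolynomial.map (algebraMap (𝓞 K) K) q) = aeval x q := fun x q =>
    aeval_map_algebraMap K x q
  have hne2 : itr e (pF a b Fm) k 2 ≠ 0 := by
    have h1 := (hIte (𝓞 K) K e (pF a b F) hdg (3 * N) _ horb 0 k (by omega)).1
    intro h2
    rw [← hitr 2] at h2
    apply h1
    rw [← hmapv, h2, map_zero]
  have hD1 : 1 ≤ 4 * Module.finrank ℚ K * m ^ 2 := by
    have : 1 ≤ m ^ 2 := Nat.one_le_pow _ _ hm1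
    calc 1 ≤ 1 * 1 * 1 := le_rfl
      _ ≤ 4 * Module.finrank ℚ K * m ^ 2 :=
        Nat.mul_le_mul (Nat.mul_le_mul (by norm_num) hkap) this
  have hD2 : 4 * (4 * Module.finrank ℚ K * m ^ 2) < dgF Fm k := by
    have h1 := hDk.trans_le (hdeg k hk0)
    have h2 : ((4 * (4 * Module.finrank ℚ K * m ^ 2) : ℕ) : ℝ) < (dgF Fm k : ℕ) := by
      push_cast at h1 ⊢
      exact h1
    exact_mod_cast h2
  obtain ⟨i, j, hRD⟩ := hRDF K Fm e a b k _ hD1 hFmh hD2 hne2
  have hC := hCov K (pF a b F) e (3 * N) k m N (fun n => ch a b (P n)) i j h he hm1 hdg horb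
    (by omega) (by rw [hitr, hitr]; exact hRD) hht1 hht2 hm12 hineq
  have horb2 : IsOrb (pF a b Fm) (2 * N) (fun n => ch a b (P n)) := by
    intro n hn
    obtain ⟨h1, h2⟩ := horb n (by omega)
    have h3 : ∀ i, aeval (ch a b (P n)) (pF a b Fm i) = aeval (ch a b (P n)) (pF a b F i) := by
      intro i
      rw [← hpm, hmapv]
    refine ⟨?_, fun i => ?_⟩
    · rw [h3]
      exact h1
    · rw [h3, h3]
      exact h2 i
  have hdgm : ∀ i, (pF a b Fm i).totalDegree ≤ e := by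
    intro i
    rw [← hpm]
    exact (Finset.sup_mono (support_map_subset _ _)).trans (hdg i)
  obtain ⟨n0, g, G, hn0, hg1, hgN, hGirr, hGdvd, hGg, hG0⟩ := hChn K (pF a b Fm) e N _ _
    (fun n => ch a b (P n)) he hN1 hdgm horb2 hinj hC hLL
  obtain ⟨k1, k2, k3, k4⟩ := hHom K Fm e a b hFmh
  refine T2A_end Fm P (fun n i => ?_) n0 g hg1 (fun i => hG a b (G i))
    (fun i => (G i).totalDegree) (fun i hi => (k1 _ (hGirr i hi.le).ne_zero).1)
    (fun i hi => (k1 _ (hGirr i hi.le).ne_zero).2) (fun i hi => k4 _ _ (hGdvd i hi))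
    (k3 _ _ hGg) ((k2 _ _ (hw n0 (by omega))).2 hG0)
  rw [hP n i, hFm, hmapv3]

end Pool.Agent.Work.MP_91e6de_nt.DM
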