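import Mathlib
import Pool.Agent.Work.MP_91e6de_nt.Bd.B03

set_option autoImplicit false

/-!
# MP_91e6de, item ThII: THEOREM II from the integral case
-/

namespace Pool.Agent.Work.MP_91e6de_nt.DM

open MvPolynomial NumberField Height Filter Topology

theorem ThII_scale {K S : Type} [Field K] [CommRing S] [Algebra K S]
    (φ : MvPolynomial (Fin 3) K) (e : ℕ) (h : φ.IsHomogeneous e) (γ : S) (f : Fin 3 → S) :
    aeval (fun j => γ * f j) φ = γ ^ e * aeval f φ := by
  rw [aeval_def, aeval_def, eval₂_eq', eval₂_eq', Finset.mul_sum]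
  apply Finset.sum_congr rfl
  intro d hd
  have hdeg : d.degree = e := by
    by_contra hne
    exact (mem_support_iff.mp hd) (h.coeff_eq_zero hne)
  have h1 : ∏ i, (γ * f i) ^ d i = γ ^ e * ∏ i, f i ^ d i := by
    simp only [mul_pow]
    rw [Finset.prod_mul_distrib, Finset.prod_pow_eq_pow_sum, ← hdeg, Finsupp.degree_eq_sum]
  rw [h1]
  ring

theorem ThII_e0 {K : Type} [Field K] (F : Fin 3 → MvPolynomial (Fin 3) K)
    (hF : ∀ i, (F i).IsHomogeneous 0) (n : ℕ) : dgF F (n + 1) = 0 := by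
  classical
  unfold dgF
  rw [Nat.sInf_eq_zero]
  left
  have hhom : ∀ i, (itF F (n + 1) i).IsHomogeneous 0 := by
    intro i
    have h1 : F i = C (coeff 0 (F i)) := by
      apply totalDegree_eq_zero_iff_eq_C.mp
      exact Nat.eq_zero_of_le_zero (hF i).totalDegree_le
    change (aeval (itF F n) (F i)).IsHomogeneous 0
    rw [h1, aeval_C]
    exact isHomogeneous_C _ _
  by_cases h0 : itF F (n + 1) = 0
  · refine ⟨fun _ => 1, ?_, fun _ => isHomogeneous_one _ _, ?_⟩
    · intro h
      have := congrFun h 0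
      simp at this
    · intro i j
      rw [h0]
      simp
  · exact ⟨itF F (n + 1), h0, hhom, fun i j => mul_comm _ _⟩

theorem ThII_itF {K : Type} [Field K] (F : Fin 3 → MvPolynomial (Fin 3) K) (e : ℕ)
    (hF : ∀ i, (F i).IsHomogeneous e) (c : K) (hc : c ≠ 0) (n : ℕ) :
    ∃ γ : K, γ ≠ 0 ∧ ∀ i, itF (fun i => C c * F i) n i = C γ * itF F n i := by
  induction n with
  | zero => exact ⟨1, one_ne_zero, fun i => by simp [itF]⟩
  | succ n ih =>
    obtain ⟨γ, hγ, h⟩ := ih
    refine ⟨c * γ ^ e, mul_ne_zero hc (pow_ne_zero _ hγ), fun i => ?_⟩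
    change aeval (itF (fun i => C c * F i) n) (C c * F i) = _ * aeval (itF F n) (F i)
    rw [show itF (fun i => C c * F i) n = fun j => C γ * itF F n j from funext h, map_mul,
      ThII_scale (F i) e (hF i), aeval_C, map_mul, map_pow]
    rw [MvPolynomial.algebraMap_eq]
    ring

theorem ThII_dgF {K : Type} [Field K] (F : Fin 3 → MvPolynomial (Fin 3) K) (e : ℕ)
    (hF : ∀ i, (F i).IsHomogeneous e) (c : K) (hc : c ≠ 0) (n : ℕ) :
    dgF (fun i => C c * F i) n = dgF F n := by
  obtain ⟨γ, hγ, h⟩ := ThII_itF F e hF c hc n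
  have hCγ : (C γ : MvPolynomial (Fin 3) K) ≠ 0 := by
    rw [Ne, C_eq_zero]
    exact hγ
  unfold dgF
  congr 1
  ext r
  constructor
  · rintro ⟨G, hG, hGh, hGp⟩
    refine ⟨G, hG, hGh, fun i j => ?_⟩
    have h1 := hGp i j
    rw [h, h] at h1
    apply mul_left_cancel₀ hCγ
    linear_combination h1
  · rintro ⟨G, hG, hGh, hGp⟩
    refine ⟨G, hG, hGh, fun i j => ?_⟩
    rw [h, h]
    linear_combination (C γ) * hGp i j

theorem ThII_clear {K : Type} [Field K] [NumberField K] (F : Fin 3 → MvPolynomial (Fin 3) K)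
    (e : ℕ) (hF : ∀ i, (F i).IsHomogeneous e) :
    ∃ (c : K) (F' : Fin 3 → MvPolynomial (Fin 3) (𝓞 K)), c ≠ 0 ∧
      (∀ i, (F' i).IsHomogeneous e) ∧ ∀ i, map (algebraMap (𝓞 K) K) (F' i) = C c * F i := by
  classical
  obtain ⟨b, hb⟩ := IsLocalization.exist_integer_multiples_of_finset (nonZeroDivisors (𝓞 K))
    (Finset.univ.biUnion fun i => (F i).support.image fun m => (F i).coeff m)
  have hb' : ∀ i m, ∃ r : 𝓞 K, algebraMap (𝓞 K) K r =
      algebraMap (𝓞 K) K (b : 𝓞 K) * (F i).coeff m := by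
    intro i m
    by_cases hm : m ∈ (F i).support
    · obtain ⟨r, hr⟩ := hb ((F i).coeff m) (Finset.mem_biUnion.mpr
        ⟨i, Finset.mem_univ i, Finset.mem_image.mpr ⟨m, hm, rfl⟩⟩)
      exact ⟨r, by rw [hr, Algebra.smul_def]⟩
    · exact ⟨0, by rw [notMem_support_iff.mp hm, mul_zero, map_zero]⟩
  choose r hr using hb'
  have hb0 : algebraMap (𝓞 K) K (b : 𝓞 K) ≠ 0 := by
    intro h
    rw [map_eq_zero_iff _ (IsFractionRing.injective (𝓞 K) K)] at h
    exact nonZeroDivisors.coe_ne_zero b h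
  have hcoeff : ∀ i m, coeff m (∑ d ∈ (F i).support, monomial d (r i d)) =
      if m ∈ (F i).support then r i m else 0 := by
    intro i m
    rw [coeff_sum]
    simp only [coeff_monomial]
    rw [Finset.sum_ite_eq' ]
  refine ⟨algebraMap (𝓞 K) K (b : 𝓞 K), fun i => ∑ d ∈ (F i).support, monomial d (r i d), hb0,
    ?_, ?_⟩
  · intro i
    apply IsHomogeneous.sum
    intro d hd
    apply isHomogeneous_monomial
    by_contra hne
    exact (mem_support_iff.mp hd) ((hF i).coeff_eq_zero hne)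
  · intro i
    ext m
    rw [coeff_map, coeff_C_mul, hcoeff]
    split_ifs with hm
    · exact hr i m
    · rw [notMem_support_iff.mp hm, mul_zero, map_zero]

theorem pr_ThII (hT : S_T2A) : S_ThII := by
  intro K _ _ F e δ hF hlim hδ
  -- `e ≥ 1`
  have he : 1 ≤ e := by
    by_contra he
    have he0 : e = 0 := by omega
    subst he0
    have h1 : Tendsto (fun n : ℕ => (dgF F n : ℝ) ^ ((1 : ℝ) / n)) atTop (𝓝 0) := by
      apply tendsto_const_nhds.congr'
      filter_upwards [eventually_ge_atTop 1] with n hn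
      obtain ⟨m, rfl⟩ : ∃ m, n = m + 1 := ⟨n - 1, by omega⟩
      rw [ThII_e0 F hF m, Nat.cast_zero, Real.zero_rpow]
      have : (0 : ℝ) < ((m + 1 : ℕ) : ℝ) := by exact_mod_cast Nat.succ_pos m
      positivity
    have := tendsto_nhds_unique hlim h1
    linarith
  -- the growth of the degrees
  set lam : ℝ := (1 + δ) / 2 with hlam
  have hlam1 : 1 < lam := by rw [hlam]; linarith
  have hlamδ : lam < δ := by rw [hlam]; linarith
  obtain ⟨k0, hk0⟩ := (hlim.eventually_const_lt hlamδ).exists_forall_of_atTop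
  have hdeg : ∀ k, k0 + 1 ≤ k → lam ^ k ≤ dgF F k := by
    intro k hk
    have h1 := hk0 k (by omega)
    have hk0' : (k : ℝ) ≠ 0 := by
      have : 0 < k := by omega
      exact_mod_cast this.ne'
    have h2 : lam ^ k ≤ ((dgF F k : ℝ) ^ ((1 : ℝ) / k)) ^ k :=
      pow_le_pow_left₀ (by linarith) h1.le k
    rw [← Real.rpow_natCast ((dgF F k : ℝ) ^ ((1 : ℝ) / k)) k, ← Real.rpow_mul
      (Nat.cast_nonneg _), one_div, inv_mul_cancel₀ hk0', Real.rpow_one] at h2
    exact h2
  -- clear denominators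
  obtain ⟨c, F', hc, hF', hmap⟩ := ThII_clear F e hF
  have hmapF : (fun i => map (algebraMap (𝓞 K) K) (F' i)) = fun i => C c * F i :=
    funext hmap
  obtain ⟨η, hη, hmain⟩ := hT K F' e (k0 + 1) lam he hF' hlam1 (by
    intro k hk
    rw [hmapF, ThII_dgF F e hF c hc]
    exact hdeg k hk)
  refine ⟨η, hη, fun P hP hO hdense C0 => ?_⟩
  by_contra hfreq
  rw [not_frequently] at hfreq
  obtain ⟨n0, hn0⟩ := hfreq.exists_forall_of_atTop
  have hfin : (0 : ℝ) < Module.finrank ℚ K := by
    exact_mod_cast Module.finrank_pos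
  -- bounds for all heights
  set M : ℝ := ∑ n ∈ Finset.range n0, logHeight (P n) with hM
  have hM0 : 0 ≤ M := Finset.sum_nonneg fun n _ => logHeight_nonneg _
  have hbound : ∀ n : ℕ, logHeight (P n) ≤
      (|C0| * Module.finrank ℚ K + M) * ((n : ℝ) + 1) ^ η := by
    intro n
    have hn' : (0 : ℝ) ≤ n := Nat.cast_nonneg n
    have h1 : 1 ≤ ((n : ℝ) + 1) ^ η := Real.one_le_rpow (by linarith) hη.le
    rcases lt_or_ge n n0 with h | h
    · have h2 : logHeight (P n) ≤ M :=
        Finset.single_le_sum (f := fun n => logHeight (P n)) (fun n _ => logHeight_nonneg _)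
          (Finset.mem_range.mpr h)
      have h3 : 0 ≤ |C0| * Module.finrank ℚ K := by positivity
      nlinarith
    · have h2 := hn0 n h
      rw [not_lt, div_le_iff₀ hfin] at h2
      have h3 : C0 * (n : ℝ) ^ η ≤ |C0| * ((n : ℝ) + 1) ^ η := by
        have h4 : (n : ℝ) ^ η ≤ ((n : ℝ) + 1) ^ η :=
          Real.rpow_le_rpow hn' (by linarith) hη.le
        have h5 : 0 ≤ (n : ℝ) ^ η := Real.rpow_nonneg hn' η
        calc C0 * (n : ℝ) ^ η ≤ |C0| * (n : ℝ) ^ η :=
              mul_le_mul_of_nonneg_right (le_abs_self C0) h5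
          _ ≤ _ := mul_le_mul_of_nonneg_left h4 (abs_nonneg C0)
      have h4 : C0 * (n : ℝ) ^ η * Module.finrank ℚ K ≤
          |C0| * ((n : ℝ) + 1) ^ η * Module.finrank ℚ K :=
        mul_le_mul_of_nonneg_right h3 hfin.le
      nlinarith
  -- the scaled orbit
  let l : ℕ → K := fun n => Nat.rec 1 (fun _ a => c * a ^ e) n
  have hl0 : l 0 = 1 := rfl
  have hls : ∀ n, l (n + 1) = c * l n ^ e := fun n => rfl
  have hl : ∀ n, l n ≠ 0 := by
    intro n
    induction n with
    | zero => rw [hl0]; exact one_ne_zero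
    | succ n ih => rw [hls]; exact mul_ne_zero hc (pow_ne_zero _ ih)
  obtain ⟨r, G, hG, hGh, hGz⟩ := hmain (fun n i => l n * P n i)
    (|C0| * Module.finrank ℚ K + M)
    (by
      intro n h
      apply hP n
      ext i
      have := congrFun h i
      simpa [hl n] using this)
    (by
      intro n i
      have h1 : (aeval (fun i => l n * P n i)) (F' i) =
          aeval (fun i => l n * P n i) (map (algebraMap (𝓞 K) K) (F' i)) := by
        rw [aeval_map_algebraMap]
      rw [h1, hmap, map_mul, ThII_scale (F i) e (hF i), aeval_C, hO, hls]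
      simp only [Algebra.algebraMap_self, RingHom.id_apply]
      ring)
    (by
      intro n
      have : (fun i => l n * P n i) = l n • P n := rfl
      rw [this, logHeight_smul_eq_logHeight _ (hl n)]
      exact hbound n)
  apply hG
  apply hdense r G hGh
  intro n
  have h1 := hGz n
  rw [ThII_scale G r hGh] at h1
  exact (mul_eq_zero.mp h1).resolve_left (pow_ne_zero _ (hl n))

end Pool.Agent.Work.MP_91e6de_nt.DM
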