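import Mathlib
import Pool.Agent.Work.MP_91e6de_nt.Bd.B03

set_option autoImplicit false

namespace Pool.Agent.Work.MP_91e6de_nt.DM

open Finset in
/-- the bad pairs for one vector -/
theorem Wnd_card {K : Type} [Field K] [CharZero K] (N : ℕ) (v : Fin 3 → K) (hv : v ≠ 0)
    (S : Finset (ℕ × ℕ)) (hS : S ⊆ range N ×ˢ range N)
    (h : ∀ x ∈ S, v 2 + x.1 * v 0 + x.2 * v 1 = 0) : S.card ≤ N := by
  have hr : (range N).card = N := card_range N
  by_cases h1 : v 1 = 0
  · by_cases h0 : v 0 = 0
    · have hS0 : S = ∅ := by
        rw [Finset.eq_empty_iff_forall_notMem]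
        intro x hx
        have h2 := h x hx
        rw [h0, h1, mul_zero, mul_zero, add_zero, add_zero] at h2
        apply hv
        funext i
        fin_cases i
        · exact h0
        · exact h1
        · exact h2
      rw [hS0]; simp
    · rw [← hr]
      refine Finset.card_le_card_of_injOn Prod.snd
        (fun x hx => (mem_product.mp (hS hx)).2) ?_
      intro x hx y hy hxy
      have h2 := h x hx
      have h3 := h y hy
      have h4 : ((x.1 : K) - y.1) * v 0 = 0 := by
        rw [h1] at h2 h3
        linear_combination h2 - h3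
      rcases mul_eq_zero.mp h4 with h5 | h5
      · have h6 : x.1 = y.1 := by exact_mod_cast sub_eq_zero.mp h5
        exact Prod.ext h6 hxy
      · exact absurd h5 h0
  · rw [← hr]
    refine Finset.card_le_card_of_injOn Prod.fst
      (fun x hx => (mem_product.mp (hS hx)).1) ?_
    intro x hx y hy hxy
    have h2 := h x hx
    have h3 := h y hy
    have h4 : ((x.2 : K) - y.2) * v 1 = 0 := by
      have hxy' : x.1 = y.1 := hxy
      rw [hxy'] at h2
      linear_combination h2 - h3
    rcases mul_eq_zero.mp h4 with h5 | h5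
    · have h6 : x.2 = y.2 := by exact_mod_cast sub_eq_zero.mp h5
      exact Prod.ext hxy h6
    · exact absurd h5 h1

open Finset in
theorem pr_Wnd : S_Wnd := by
  classical
  intro K _ _ M P hP
  by_contra hcon
  push Not at hcon
  have h1 : range (M + 2) ×ˢ range (M + 2) ⊆ (range (M + 1)).biUnion (fun n =>
      (range (M + 2) ×ˢ range (M + 2)).filter
        (fun x : ℕ × ℕ => P n 2 + x.1 * P n 0 + x.2 * P n 1 = 0)) := by
    intro x hx
    have hx' := mem_product.mp hx
    rw [mem_range, mem_range] at hx'
    obtain ⟨n, hn, hn'⟩ := hcon x.1 x.2 (by omega) (by omega)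
    rw [mem_biUnion]
    exact ⟨n, mem_range.mpr (by omega), mem_filter.mpr ⟨hx, hn'⟩⟩
  have h2 := card_le_card h1
  rw [card_product, card_range] at h2
  have h3 := h2.trans (card_biUnion_le.trans (sum_le_card_nsmul _ _ (M + 2) (fun n _ =>
    Wnd_card (M + 2) (P n) (hP n) _ (filter_subset _ _) (fun x hx => (mem_filter.mp hx).2))))
  rw [card_range, smul_eq_mul] at h3
  nlinarith

end Pool.Agent.Work.MP_91e6de_nt.DM
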