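import Mathlib
import Pool.Agent.Work.MP_91e6de_nt.Bd.B09
import Pool.Agent.Work.MP_91e6de_nt.DM.I_CoO
import Pool.Agent.Work.MP_91e6de_nt.DM.I_CoD
import Pool.Agent.Work.MP_91e6de_nt.DM.I_CoH
import Pool.Agent.Work.MP_91e6de_nt.DM.I_Wnd
import Pool.Agent.Work.MP_91e6de_nt.DM.I_RDF
import Pool.Agent.Work.MP_91e6de_nt.DM.I_Hom
import Pool.Agent.Work.MP_91e6de_nt.DM.I_T2A
import Pool.Agent.Work.MP_91e6de_nt.DM.I_ThII

set_option autoImplicit false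

/-! Assembly of Theorem II. -/

namespace Pool.Agent.Work.MP_91e6de_nt.DM

theorem all_CoH : S_CoH := pr_CoH pr_PoH
theorem all_Hom : S_Hom := pr_Hom pr_HsEv
theorem all_T2A : S_T2A := pr_T2A all_Cov all_Chn pr_Par all_Ite pr_MapI pr_Wnd pr_CoO pr_CoD
  all_CoH pr_RDF all_Hom
theorem all_ThII : S_ThII := pr_ThII all_T2A

end Pool.Agent.Work.MP_91e6de_nt.DM
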